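import Pool.Agent.W423.MV.Pol

set_option autoImplicit false

namespace Pool.Agent.W423.MV

open MvPolynomial Pool.Agent.H628R4.TZ Pool.Agent.H628R4.TP Pool.Agent.W425.SM
open MeasureTheory Set Filter Topology

variable {r N : ℕ}

/-- the weight of a cone -/
noncomputable def wcW (v : Fin r → Fin N → ℕ) (μ : Fin N → ℝ) (σ : Finset (Fin N → ℕ))
    (s : ℝ) : ℂ := ∏ ρ ∈ σ, ((ordAlong v ρ : ℂ) * s + ((kw μ ρ : ℝ) : ℂ))⁻¹

open Classical in
lemma sum_limJW_one [NeZero r] (v : Fin r → Fin N → ℕ) (R : SmoothFan N) (hR : Principal v R)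
    (hidx : ∀ J, J.card = 1 → idx v J = 1) (μ : Fin N → ℝ) (α s : ℝ) :
    ∑ j : Fin r, limJW v μ R α s {j} = ∑ σ ∈ R.cones,
      if (minSet v σ).card = 1 ∧ σ.card + (minSet v σ).card = N + 1 ∧ Inc α σ ∧
        (∃ ρ ∈ σ, ordAlong v ρ ≠ 0) then wcW v μ σ s else 0 := by
  unfold limJW
  rw [Finset.sum_comm]
  refine Finset.sum_congr rfl fun σ _ => ?_
  by_cases h1 : (minSet v σ).card = 1
  · obtain ⟨j0, hj0⟩ := Finset.card_eq_one.1 h1
    rw [Finset.sum_eq_single j0]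
    · rw [hj0, hidx {j0} (Finset.card_singleton _)]
      simp [wcW]
    · intro j _ hj
      rw [if_neg]
      rintro ⟨h2, _⟩
      rw [hj0, Finset.singleton_inj] at h2
      exact hj h2.symm
    · intro h; exact absurd (Finset.mem_univ _) h
  · rw [if_neg (fun h => h1 h.1)]
    refine Finset.sum_eq_zero fun j _ => if_neg ?_
    rintro ⟨h2, _⟩
    rw [h2, Finset.card_singleton] at h1
    exact h1 rfl

open Classical in
lemma sum_limJW_all [NeZero r] (v : Fin r → Fin N → ℕ) (R : SmoothFan N) (hR : Principal v R)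
    (hidx : ∀ J, idx v J ≠ 0) (μ : Fin N → ℝ) (α s : ℝ) :
    ∑ J ∈ (Finset.univ : Finset (Finset (Fin r))).filter (fun J => J.Nonempty),
      (idx v J : ℂ) ^ 2 * ((-1) ^ J.card * limJW v μ R α s J) = ∑ σ ∈ R.cones,
      if σ.card + (minSet v σ).card = N + 1 ∧ Inc α σ ∧
        (∃ ρ ∈ σ, ordAlong v ρ ≠ 0) then (-1) ^ (minSet v σ).card * (idx v (minSet v σ) : ℂ) *
          wcW v μ σ s else 0 := by
  unfold limJW
  simp only [Finset.mul_sum]
  rw [Finset.sum_comm]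
  refine Finset.sum_congr rfl fun σ hσ => ?_
  rw [Finset.sum_eq_single (minSet v σ)]
  · have h1 : (idx v (minSet v σ) : ℂ) ≠ 0 := by exact_mod_cast hidx _
    by_cases h : σ.card + (minSet v σ).card = N + 1 ∧ Inc α σ ∧ (∃ ρ ∈ σ, ordAlong v ρ ≠ 0)
    · rw [if_pos ⟨rfl, h⟩, if_pos h, wcW]
      have h2 : (idx v (minSet v σ) : ℂ) ^ 2 * (idx v (minSet v σ) : ℂ)⁻¹ =
          (idx v (minSet v σ) : ℂ) := by rw [pow_two, mul_assoc, mul_inv_cancel₀ h1, mul_one]
      calc _ = (-1 : ℂ) ^ (minSet v σ).card *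
            ((idx v (minSet v σ) : ℂ) ^ 2 * (idx v (minSet v σ) : ℂ)⁻¹) *
            ∏ ρ ∈ σ, ((ordAlong v ρ : ℂ) * s + ((kw μ ρ : ℝ) : ℂ))⁻¹ := by ring
        _ = _ := by rw [h2]
    · rw [if_neg (fun h' => h h'.2), if_neg h]
      simp
  · intro J _ hJ
    rw [if_neg (fun h => hJ h.1.symm)]
    simp
  · intro h
    exact absurd (Finset.mem_filter.2 ⟨Finset.mem_univ _, minSet_nonempty v R hR σ hσ⟩) h

open Classical in
/-- the values of the topological zeta function with weights `μ` -/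
noncomputable def FW (v : Fin r → Fin N → ℕ) (μ : Fin N → ℝ) (R : SmoothFan N) (α : ℝ)
    (s : ℝ) : ℂ :=
  ∑ σ ∈ R.cones.filter (Inc α),
    (((chiO σ - chiH v σ : ℤ) : ℂ) + ((chiH v σ : ℤ) : ℂ) * ((s : ℂ) + 1)⁻¹) * wcW v μ σ s

open Classical in
/-- the constant from the cones on which the order is zero -/
noncomputable def AW (v : Fin r → Fin N → ℕ) (μ : Fin N → ℝ) (R : SmoothFan N) (α : ℝ) : ℂ :=
  ∑ σ ∈ R.cones.filter (Inc α), (if ∃ ρ ∈ σ, ordAlong v ρ ≠ 0 then 0 else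
    ((chiH v σ : ℤ) : ℂ) * ∏ ρ ∈ σ, ((kw μ ρ : ℝ) : ℂ)⁻¹)

open Classical in
lemma s_FW [NeZero r] (v : Fin r → Fin N → ℕ) (hv : Function.Injective v) (hv0 : ∀ j, v j ≠ 0)
    (R : SmoothFan N) (hR : Principal v R)
    (hidx1 : ∀ J, J.card = 1 → idx v J = 1) (hidx : ∀ J, idx v J ≠ 0) (μ : Fin N → ℝ) (α s : ℝ)
    (hs : 0 < s) :
    ((s : ℂ) + 1) * FW v μ R α s = ∑ j : Fin r, limJW v μ R α s {j} -
      s * ∑ J ∈ (Finset.univ : Finset (Finset (Fin r))).filter (fun J => J.Nonempty),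
        (idx v J : ℂ) ^ 2 * ((-1) ^ J.card * limJW v μ R α s J) - s * AW v μ R α := by
  have hs1 : (s : ℂ) + 1 ≠ 0 := by
    have := lin_ne 1 1 one_pos s hs
    simpa using this
  rw [sum_limJW_one v R hR hidx1, sum_limJW_all v R hR hidx, FW, AW, Finset.mul_sum,
    Finset.mul_sum, Finset.mul_sum, Finset.sum_filter, Finset.sum_filter,
    ← Finset.sum_sub_distrib, ← Finset.sum_sub_distrib]
  refine Finset.sum_congr rfl fun σ hσ => ?_
  by_cases hI : Inc α σ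
  swap
  · rw [if_neg hI, if_neg hI, if_neg (fun h => hI h.2.2.1), if_neg (fun h => hI h.2.1)]; simp
  rw [if_pos hI, if_pos hI]
  have h4 : ((s : ℂ) + 1) * ((((chiO σ - chiH v σ : ℤ) : ℂ) +
      ((chiH v σ : ℤ) : ℂ) * ((s : ℂ) + 1)⁻¹) * wcW v μ σ s) =
      ((s + 1) * ((chiO σ : ℤ) : ℂ) - s * ((chiH v σ : ℤ) : ℂ)) * wcW v μ σ s := by
    push_cast
    field_simp
    ring
  rw [h4]
  by_cases hE : ∃ ρ ∈ σ, ordAlong v ρ ≠ 0
  swap
  · have hN : σ.card ≠ N := fun h => hE (full_ord v hv0 R hR σ hσ h)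
    have h5 : wcW v μ σ s = ∏ ρ ∈ σ, ((kw μ ρ : ℝ) : ℂ)⁻¹ := by
      unfold wcW
      refine Finset.prod_congr rfl fun ρ hρ => ?_
      push Not at hE
      rw [hE ρ hρ]
      simp
    rw [if_neg hE, if_neg (fun h => hE h.2.2.2), if_neg (fun h => hE h.2.2), h5, chiO, if_neg hN]
    push_cast
    ring
  rw [if_pos hE]
  have hpos := (minSet_nonempty v R hR σ hσ).card_pos
  by_cases hcard : σ.card + (minSet v σ).card = N + 1
  · by_cases h1 : (minSet v σ).card = 1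
    · have hN : σ.card = N := by omega
      rw [if_pos ⟨h1, hcard, hI, hE⟩, if_pos ⟨hcard, hI, hE⟩, hidx1 _ h1, h1]
      unfold chiO chiH
      rw [if_pos hN, if_neg (by omega)]
      push_cast
      ring
    · have hN : σ.card ≠ N := by omega
      rw [if_neg (fun h => h1 h.1), if_pos ⟨hcard, hI, hE⟩]
      unfold chiO chiH
      rw [if_neg hN, if_pos ⟨by omega, hcard⟩]
      push_cast
      ring
  · have hN : σ.card ≠ N := fun h => hcard (by rw [full_minSet v hv R hR σ hσ h, h])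
    rw [if_neg (fun h => hcard h.2.1), if_neg (fun h => hcard h.1)]
    unfold chiO chiH
    rw [if_neg hN, if_neg (fun h => hcard h.2)]
    simp

/-- **For fixed weights, `(s + 1) p(s) Z(s)` is a polynomial in `s`.** -/
theorem mainW [NeZero r] (v : Fin r → Fin N → ℕ) (hv : Ind v) (hv0 : ∀ j, v j ≠ 0)
    (R : SmoothFan N) (hR : Principal v R) (M : ℕ) (Cs : Finset (Fin r → ℤ)) (μ : Fin N → ℝ)
    (hμ : ∀ i, ((M * ∑ j, v j i : ℕ) : ℝ) < μ i) (α : ℝ) (hα : α ≠ 0) (p : Polynomial ℂ)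
    (hRel : RelW μ v M Cs p) :
    ∃ Q : Polynomial ℂ, ∀ s : ℝ, 1 ≤ s →
      (((Polynomial.X + 1) * p).eval (s : ℂ)) * FW v μ R α s = Q.eval (s : ℂ) := by
  classical
  have h1 := fun J hJ => pJW v hv R hR M Cs μ hμ α hα p hRel J hJ
  choose! Q hQ using h1
  refine ⟨∑ j, Q {j} - Polynomial.X * ∑ J ∈ (Finset.univ : Finset (Finset (Fin r))).filter
    (fun J => J.Nonempty), Polynomial.C ((idx v J : ℂ) ^ 2 * (-1) ^ J.card) * Q J -
    Polynomial.X * p * Polynomial.C (AW v μ R α), fun s hs => ?_⟩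
  have hs' : 0 < s := one_pos.trans_le hs
  have h2 := s_FW v hv.injective hv0 R hR
    (fun J hJ => (Pool.Agent.W655.SM.taskC4 v J hv).2.1 hJ)
    (fun J => (Pool.Agent.W655.SM.taskC4 v J hv).1) μ α s hs'
  have h3 : (((Polynomial.X + 1) * p).eval (s : ℂ)) * FW v μ R α s =
      p.eval (s : ℂ) * (((s : ℂ) + 1) * FW v μ R α s) := by
    simp only [Polynomial.eval_mul, Polynomial.eval_add, Polynomial.eval_X, Polynomial.eval_one]
    ring
  rw [h3, h2]
  simp only [Polynomial.eval_sub, Polynomial.eval_mul, Polynomial.eval_X, Polynomial.eval_C,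
    Polynomial.eval_finsetSum]
  have h4 : ∀ j : Fin r, (Q {j}).eval (s : ℂ) = p.eval (s : ℂ) * limJW v μ R α s {j} :=
    fun j => (hQ {j} (Finset.singleton_nonempty j) s hs).symm
  have h5 : ∀ J ∈ (Finset.univ : Finset (Finset (Fin r))).filter (fun J => J.Nonempty),
      (idx v J : ℂ) ^ 2 * (-1) ^ J.card * (Q J).eval (s : ℂ) =
      p.eval (s : ℂ) * ((idx v J : ℂ) ^ 2 * ((-1) ^ J.card * limJW v μ R α s J)) := by
    intro J hJ
    rw [← hQ J (Finset.mem_filter.1 hJ).2 s hs]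
    ring
  rw [Finset.sum_congr rfl h5, Finset.sum_congr rfl fun j _ => h4 j, ← Finset.mul_sum,
    ← Finset.mul_sum]
  ring

end Pool.Agent.W423.MV
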