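import Pool.Agent.W423.MV.A2
import Pool.Agent.W423.MV.Main

set_option autoImplicit false

/-! The multi-variable theorem. -/

namespace Pool.Agent.W423.MV

open MvPolynomial Pool.Agent.H628R4.TZ Pool.Agent.W425.SM

variable {r N : ℕ}

/-- the field of rational functions -/
abbrev KK (N : ℕ) := FractionRing (MvPolynomial (Fin (N+1)) ℂ)

/-- `s_0 ↦ X`, `s_i ↦ X_i + X` -/
noncomputable def tau : MvPolynomial (Fin (N+1)) ℂ →ₐ[ℂ] Polynomial (MvPolynomial (Fin N) ℂ) :=
  aeval (Fin.cons Polynomial.X (fun i => Polynomial.C (X i) + Polynomial.X))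

/-- the inverse -/
noncomputable def tau' : Polynomial (MvPolynomial (Fin N) ℂ) →+* MvPolynomial (Fin (N+1)) ℂ :=
  Polynomial.eval₂RingHom
    ((aeval (fun i : Fin N => (X i.succ - X 0 : MvPolynomial (Fin (N+1)) ℂ)) :
      MvPolynomial (Fin N) ℂ →ₐ[ℂ] MvPolynomial (Fin (N+1)) ℂ) : _ →+* _) (X 0)

lemma tau'_tau (p : MvPolynomial (Fin (N+1)) ℂ) : tau' (tau p) = p := by
  induction p using MvPolynomial.induction_on with
  | C a =>
    have h1 : tau (C a : MvPolynomial (Fin (N+1)) ℂ) = Polynomial.C (C a) := by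
      unfold tau
      rw [aeval_C]
      rfl
    rw [h1, tau']
    simp
  | add p q hp hq => rw [map_add, map_add, hp, hq]
  | mul_X p i hp =>
    rw [map_mul, map_mul, hp]
    congr 1
    unfold tau
    rw [aeval_X]
    refine Fin.cases ?_ (fun j => ?_) i
    · simp [tau']
    · simp [tau']

lemma tau_injective : Function.Injective (tau : MvPolynomial (Fin (N+1)) ℂ → _) :=
  Function.LeftInverse.injective tau'_tau

lemma map_tau (m : Fin N → ℕ) (p : MvPolynomial (Fin (N+1)) ℂ) :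
    (tau p).map (eval (fun i => (m i : ℂ))) = evm m p := by
  induction p using MvPolynomial.induction_on with
  | C a =>
    have h1 : tau (C a : MvPolynomial (Fin (N+1)) ℂ) = Polynomial.C (C a) := by
      unfold tau
      rw [aeval_C]
      rfl
    rw [h1, Polynomial.map_C, eval_C, evm, aeval_C]
    rfl
  | add p q hp hq => rw [map_add, Polynomial.map_add, hp, hq, map_add]
  | mul_X p i hp =>
    rw [map_mul, Polynomial.map_mul, hp, map_mul]
    congr 1
    unfold tau evm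
    rw [aeval_X, aeval_X]
    refine Fin.cases ?_ (fun j => ?_) i
    · simp
    · simp

lemma dvd_of_eval (G H : Polynomial (MvPolynomial (Fin N) ℂ)) (hH : IsUnit H.leadingCoeff)
    (m0 : ℕ) (h : ∀ m : Fin N → ℕ, (∀ i, m0 ≤ m i) →
      H.map (eval (fun i => (m i : ℂ))) ∣ G.map (eval (fun i => (m i : ℂ)))) : H ∣ G := by
  obtain ⟨u, hu⟩ := hH
  set H' : Polynomial (MvPolynomial (Fin N) ℂ) :=
    Polynomial.C ((u⁻¹ : (MvPolynomial (Fin N) ℂ)ˣ) : MvPolynomial (Fin N) ℂ) * H with hH'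
  have hmon : H'.Monic := Polynomial.monic_C_mul_of_mul_leadingCoeff_eq_one (by
    rw [← hu]; simp)
  have hHH' : H ∣ H' := Dvd.intro_left _ rfl
  have hH'H : H' ∣ H := by
    refine ⟨Polynomial.C ((u : (MvPolynomial (Fin N) ℂ)ˣ) : MvPolynomial (Fin N) ℂ), ?_⟩
    rw [hH', mul_right_comm, ← Polynomial.C_mul]
    simp
  refine hHH'.trans ?_
  rw [← Polynomial.modByMonic_eq_zero_iff_dvd hmon]
  ext1 k
  rw [Polynomial.coeff_zero]
  refine funext_set (fun _ => (Nat.cast : ℕ → ℂ) '' Set.Ici m0)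
    (fun _ => (Set.Ici_infinite m0).image Nat.cast_injective.injOn) fun x hx => ?_
  choose m hm using fun j => hx j (Set.mem_univ j)
  obtain rfl : x = fun j => (m j : ℂ) := funext fun j => (hm j).2.symm
  have h1 : (G %ₘ H').map (eval (fun i => (m i : ℂ))) = 0 := by
    rw [Polynomial.map_modByMonic _ hmon, Polynomial.modByMonic_eq_zero_iff_dvd (hmon.map _)]
    refine dvd_trans ?_ (h m fun i => (hm i).1)
    exact Polynomial.map_dvd _ hH'H
  have h2 := congrArg (fun p => p.coeff k) h1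
  simpa [Polynomial.coeff_map] using h2

/-- `z` is a rational function with values `F m s` at the points of the lines -/
def RpM (z : KK N) (F : (Fin N → ℕ) → ℝ → ℂ) : Prop :=
  ∃ A D : MvPolynomial (Fin (N+1)) ℂ, IsUnit (tau D).leadingCoeff ∧
    (∀ (m : Fin N → ℕ) (s : ℝ), 0 < s → eval (pc m (s : ℂ)) D ≠ 0) ∧
    z * algebraMap _ (KK N) D = algebraMap _ (KK N) A ∧
    ∀ (m : Fin N → ℕ) (s : ℝ), 0 < s →
      F m s * eval (pc m (s : ℂ)) D = eval (pc m (s : ℂ)) A

lemma RpM.const (c : ℤ) : RpM (N := N) (c : KK N) (fun _ _ => (c : ℂ)) :=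
  ⟨C (c : ℂ), 1, by simp, fun m s _ => by simp, by simp, fun m s _ => by simp⟩

lemma RpM.add {z z' : KK N} {F F' : (Fin N → ℕ) → ℝ → ℂ} (h : RpM z F) (h' : RpM z' F') :
    RpM (z + z') (fun m s => F m s + F' m s) := by
  obtain ⟨A, D, h0, h1, h2, h3⟩ := h
  obtain ⟨A', D', h0', h1', h2', h3'⟩ := h'
  refine ⟨A * D' + A' * D, D * D', ?_, fun m s hs => ?_, ?_, fun m s hs => ?_⟩
  · rw [map_mul, Polynomial.leadingCoeff_mul]; exact h0.mul h0'
  · rw [map_mul]; exact mul_ne_zero (h1 m s hs) (h1' m s hs)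
  · rw [map_mul, map_add, map_mul, map_mul, ← h2, ← h2']; ring
  · rw [map_mul, map_add, map_mul, map_mul, ← h3 m s hs, ← h3' m s hs]; ring

lemma RpM.mul {z z' : KK N} {F F' : (Fin N → ℕ) → ℝ → ℂ} (h : RpM z F) (h' : RpM z' F') :
    RpM (z * z') (fun m s => F m s * F' m s) := by
  obtain ⟨A, D, h0, h1, h2, h3⟩ := h
  obtain ⟨A', D', h0', h1', h2', h3'⟩ := h'
  refine ⟨A * A', D * D', ?_, fun m s hs => ?_, ?_, fun m s hs => ?_⟩
  · rw [map_mul, Polynomial.leadingCoeff_mul]; exact h0.mul h0'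
  · rw [map_mul]; exact mul_ne_zero (h1 m s hs) (h1' m s hs)
  · rw [map_mul, map_mul, ← h2, ← h2']; ring
  · rw [map_mul, map_mul, ← h3 m s hs, ← h3' m s hs]; ring

lemma RpM.sum {ι : Type*} (t : Finset ι) (z : ι → KK N) (F : ι → (Fin N → ℕ) → ℝ → ℂ)
    (h : ∀ i ∈ t, RpM (z i) (F i)) : RpM (∑ i ∈ t, z i) (fun m s => ∑ i ∈ t, F i m s) := by
  classical
  induction t using Finset.induction_on with
  | empty => simpa using RpM.const (N := N) 0
  | insert a t ha ih =>
    simp only [Finset.sum_insert ha]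
    exact (h a (by simp)).add (ih fun i hi => h i (by simp [hi]))

lemma RpM.prod {ι : Type*} (t : Finset ι) (z : ι → KK N) (F : ι → (Fin N → ℕ) → ℝ → ℂ)
    (h : ∀ i ∈ t, RpM (z i) (F i)) : RpM (∏ i ∈ t, z i) (fun m s => ∏ i ∈ t, F i m s) := by
  classical
  induction t using Finset.induction_on with
  | empty => simpa using RpM.const (N := N) 1
  | insert a t ha ih =>
    simp only [Finset.prod_insert ha]
    exact (h a (by simp)).mul (ih fun i hi => h i (by simp [hi]))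

lemma RpM.inv (L : MvPolynomial (Fin (N+1)) ℂ) (hL : IsUnit (tau L).leadingCoeff)
    (hne : ∀ (m : Fin N → ℕ) (s : ℝ), 0 < s → eval (pc m (s : ℂ)) L ≠ 0) :
    RpM ((algebraMap _ (KK N) L)⁻¹) (fun m s => (eval (pc m (s : ℂ)) L)⁻¹) := by
  have hL0 : L ≠ 0 := by
    rintro rfl
    exact hne 0 1 one_pos (by simp)
  refine ⟨1, L, hL, hne, ?_, fun m s hs => ?_⟩
  · rw [map_one, inv_mul_cancel₀]
    rw [Ne, FaithfulSMul.algebraMap_eq_zero_iff]; exact hL0
  · rw [inv_mul_cancel₀ (hne m s hs)]; simp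

/-- A rational function whose values times those of `b` are polynomials on the lines. -/
lemma RpM.final {z : KK N} {F : (Fin N → ℕ) → ℝ → ℂ} (h : RpM z F)
    (b : MvPolynomial (Fin (N+1)) ℂ) (m0 : ℕ)
    (hb : ∀ m : Fin N → ℕ, (∀ i, m0 ≤ m i) → ∃ Q : Polynomial ℂ, ∀ s : ℝ, 1 ≤ s →
      (evm m b).eval (s : ℂ) * F m s = Q.eval (s : ℂ)) :
    ∃ P : MvPolynomial (Fin (N+1)) ℂ, algebraMap _ (KK N) b * z = algebraMap _ (KK N) P := by
  obtain ⟨A, D, h0, h1, h2, h3⟩ := h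
  have hdvd : tau D ∣ tau (b * A) := by
    refine dvd_of_eval _ _ h0 m0 fun m hm => ?_
    rw [map_tau, map_tau]
    obtain ⟨Q, hQ⟩ := hb m hm
    refine ⟨Q, ?_⟩
    refine Polynomial.eq_of_infinite_eval_eq _ _ ?_
    refine ((Set.Ici_infinite (1:ℝ)).image Complex.ofReal_injective.injOn).mono ?_
    rintro _ ⟨s, hs, rfl⟩
    have hs' : 1 ≤ s := hs
    have hs0 : 0 < s := one_pos.trans_le hs'
    show Polynomial.eval (s:ℂ) (evm m (b * A)) = Polynomial.eval (s:ℂ) (evm m D * Q)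
    rw [Polynomial.eval_mul, ← hQ s hs', map_mul, Polynomial.eval_mul, eval_evm m s A, eval_evm m s D,
      ← h3 m s hs0]
    ring
  obtain ⟨P, hP⟩ := hdvd
  refine ⟨tau' P, ?_⟩
  have h4 : b * A = D * tau' P := by
    have := congrArg tau' hP
    rwa [tau'_tau, map_mul, tau'_tau] at this
  have hD0 : D ≠ 0 := by
    rintro rfl
    exact h1 0 1 one_pos (by simp)
  have hA : algebraMap _ (KK N) D ≠ 0 := by
    rw [Ne, FaithfulSMul.algebraMap_eq_zero_iff]; exact hD0
  refine mul_right_cancel₀ hA ?_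
  rw [mul_assoc, h2, ← map_mul, ← map_mul, h4, mul_comm D]

/-! ### The linear forms -/

lemma tau_C (c : ℂ) : tau (C c : MvPolynomial (Fin (N+1)) ℂ) = Polynomial.C (C c) := by
  unfold tau
  rw [aeval_C]
  rfl

lemma tau_zero : tau (X 0 : MvPolynomial (Fin (N+1)) ℂ) = Polynomial.X := by
  unfold tau
  rw [aeval_X]
  rfl

lemma tau_succ (i : Fin N) : tau (X i.succ : MvPolynomial (Fin (N+1)) ℂ) =
    Polynomial.C (X i) + Polynomial.X := by
  unfold tau
  rw [aeval_X]
  rfl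

lemma lc_lin (c : ℂ) (hc : c ≠ 0) (q : MvPolynomial (Fin N) ℂ) :
    IsUnit (Polynomial.C (C c : MvPolynomial (Fin N) ℂ) * Polynomial.X +
      Polynomial.C q).leadingCoeff := by
  have h : (C c : MvPolynomial (Fin N) ℂ) ≠ 0 := by simpa using hc
  rw [Polynomial.leadingCoeff_linear h]
  exact (isUnit_iff_ne_zero.2 hc).map C

lemma tau_linForm (v : Fin r → Fin N → ℕ) (ρ : Fin N → ℕ) :
    tau (linForm v ρ) = Polynomial.C (C ((ordAlong v ρ + ∑ i, ρ i : ℕ) : ℂ)) * Polynomial.X +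
      Polynomial.C (∑ i, C (ρ i : ℂ) * (X i + 1)) := by
  unfold linForm
  rw [map_add, map_mul, tau_C, tau_zero, map_sum]
  have h1 : ∀ i : Fin N, tau (C (ρ i : ℂ) * (X i.succ + 1) : MvPolynomial (Fin (N+1)) ℂ) =
      Polynomial.C (C (ρ i : ℂ)) * Polynomial.X +
        Polynomial.C (C (ρ i : ℂ) * (X i + 1)) := by
    intro i
    rw [map_mul, tau_C, map_add, tau_succ, map_one, Polynomial.C_mul, Polynomial.C_add,
      Polynomial.C_1]
    ring
  rw [Finset.sum_congr rfl fun i _ => h1 i, Finset.sum_add_distrib, ← Finset.sum_mul, ← map_sum,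
    ← map_sum, ← map_sum]
  push_cast
  rw [map_add, map_add]
  ring

lemma ord_vp [NeZero r] (v : Fin r → Fin N → ℕ) (ρ : Fin N → ℕ) :
    ordAlong (vp v) ρ = ordAlong v ρ + ∑ i, ρ i := by
  unfold ordAlong vp
  simp only [mul_add, mul_one, Finset.sum_add_distrib]
  haveI : Nonempty (Fin r) := ⟨0⟩
  obtain ⟨j, hj⟩ := exists_eq_ciInf_of_finite (f := fun j : Fin r => ∑ l, ρ l * v j l)
  refine le_antisymm ?_ ?_
  · refine (ciInf_le (Set.finite_range _).bddBelow j).trans (le_of_eq ?_)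
    rw [← hj]
  · refine le_ciInf fun j => ?_
    exact Nat.add_le_add_right (ciInf_le (Set.finite_range _).bddBelow j) _

lemma minSet_vp [NeZero r] (v : Fin r → Fin N → ℕ) (σ : Finset (Fin N → ℕ)) :
    minSet (vp v) σ = minSet v σ := by
  unfold minSet
  refine Finset.filter_congr fun j _ => ?_
  refine forall₂_congr fun ρ _ => ?_
  rw [ord_vp]
  simp only [vp, mul_add, mul_one, Finset.sum_add_distrib]
  omega

lemma idx_vp (v : Fin r → Fin N → ℕ) (J : Finset (Fin r)) : idx (vp v) J = idx v J := by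
  unfold idx
  congr 1
  ext y
  constructor
  · rintro ⟨p, rfl⟩
    refine ⟨(p.1, p.2 + ∑ i, p.1 i), ?_⟩
    funext j
    simp only [evalHom, AddMonoidHom.coe_mk, ZeroHom.coe_mk, vp]
    push_cast
    simp only [mul_add, mul_one, Finset.sum_add_distrib]
    ring
  · rintro ⟨p, rfl⟩
    refine ⟨(p.1, p.2 - ∑ i, p.1 i), ?_⟩
    funext j
    simp only [evalHom, AddMonoidHom.coe_mk, ZeroHom.coe_mk, vp]
    push_cast
    simp only [mul_add, mul_one, Finset.sum_add_distrib]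
    ring

lemma chiH_vp [NeZero r] (v : Fin r → Fin N → ℕ) (σ : Finset (Fin N → ℕ)) :
    chiH (vp v) σ = chiH v σ := by
  unfold chiH
  rw [minSet_vp, idx_vp]

lemma principal_vp (v : Fin r → Fin N → ℕ) (R : SmoothFan N) (h : Principal v R) :
    Principal (vp v) R := by
  intro σ hσ
  obtain ⟨j, hj⟩ := h σ hσ
  refine ⟨j, fun ρ hρ j' => ?_⟩
  simp only [vp, mul_add, mul_one, Finset.sum_add_distrib]
  exact Nat.add_le_add_right (hj ρ hρ j') _

lemma eval_linForm [NeZero r] (v : Fin r → Fin N → ℕ) (ρ : Fin N → ℕ) (m : Fin N → ℕ) (s : ℝ) :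
    eval (pc m (s : ℂ)) (linForm v ρ) =
      (ordAlong (vp v) ρ : ℂ) * s + ((kw (mw m) ρ : ℝ) : ℂ) := by
  unfold linForm kw mw
  rw [ord_vp, map_add, map_mul, eval_C, eval_X, map_sum]
  simp only [map_mul, eval_C, map_add, eval_X, map_one, pc, Fin.cons_zero, Fin.cons_succ]
  push_cast
  rw [add_mul, add_assoc, Finset.sum_mul, ← Finset.sum_add_distrib]
  congr 1
  exact Finset.sum_congr rfl fun i _ => by ring

lemma mw_pos (m : Fin N → ℕ) (i : Fin N) : 0 < mw m i := by unfold mw; positivity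

lemma lin_ne' [NeZero r] (v : Fin r → Fin N → ℕ) (R : SmoothFan N) (σ : Finset (Fin N → ℕ))
    (hσ : σ ∈ R.cones) (ρ : Fin N → ℕ) (hρ : ρ ∈ σ) (m : Fin N → ℕ) (s : ℝ) (hs : 0 < s) :
    eval (pc m (s : ℂ)) (linForm v ρ) ≠ 0 := by
  rw [eval_linForm]
  have h1 := kpW_pos (vp v) R (mw m) (mw_pos m) s hs σ hσ ρ hρ
  have h2 : (ordAlong (vp v) ρ : ℂ) * s + ((kw (mw m) ρ : ℝ) : ℂ) =
      ((kpW (vp v) (mw m) s ρ : ℝ) : ℂ) := by
    unfold kpW; push_cast; rfl
  rw [h2]
  exact_mod_cast h1.ne'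

/-- the values of the topological zeta function on the lines -/
lemma RpM_zeta [NeZero r] (v : Fin r → Fin N → ℕ) (R : SmoothFan N) :
    RpM (topZetaMulti v R) (fun m s => FW (vp v) (mw m) R 1 s) := by
  classical
  have h1 : ∀ (m : Fin N → ℕ) (s : ℝ), FW (vp v) (mw m) R 1 s = ∑ σ ∈ R.cones,
      (((chiO σ - chiH v σ : ℤ) : ℂ) + ((chiH v σ : ℤ) : ℂ) *
        (eval (pc m (s : ℂ)) (X 0 + 1 : MvPolynomial (Fin (N+1)) ℂ))⁻¹) *
      ∏ ρ ∈ σ, (eval (pc m (s : ℂ)) (linForm v ρ))⁻¹ := by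
    intro m s
    unfold FW wcW
    have hfil : R.cones.filter (Inc (1:ℝ)) = R.cones :=
      Finset.filter_true_of_mem fun σ _ => Or.inl one_pos
    rw [hfil]
    refine Finset.sum_congr rfl fun σ _ => ?_
    rw [chiH_vp]
    congr 1
    · simp [pc]
    · exact Finset.prod_congr rfl fun ρ _ => by rw [eval_linForm]
  simp only [h1]
  unfold topZetaMulti
  refine RpM.sum _ _ _ fun σ hσ => ?_
  refine ((RpM.const _).add ((RpM.const _).mul (RpM.inv _ ?_ ?_))).mul (RpM.prod _ _ _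
    fun ρ hρ => RpM.inv _ ?_ ?_)
  · rw [map_add, tau_zero, map_one]
    have := lc_lin (N := N) 1 one_ne_zero 1
    simpa using this
  · intro m s hs
    have h2 : eval (pc m (s : ℂ)) (X 0 + 1 : MvPolynomial (Fin (N+1)) ℂ) = ((s + 1 : ℝ) : ℂ) := by
      simp [pc]
    rw [h2]
    exact_mod_cast (by linarith : (s + 1 : ℝ) ≠ 0)
  · rw [tau_linForm]
    refine lc_lin _ ?_ _
    have := ray_sum_pos R σ hσ ρ hρ
    exact_mod_cast (by omega : ordAlong v ρ + ∑ i, ρ i ≠ 0)
  · exact fun m s hs => lin_ne' v R σ hσ ρ hρ m s hs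

theorem main (hr : 2 ≤ r) (v : Fin r → Fin N → ℕ) (a : Fin r → ℂ)
    (hv : AffineIndependent ℚ (fun j => (fun i => (v j i : ℚ) : Fin N → ℚ)))
    (ha : ∀ j, a j ≠ 0) (R : SmoothFan N) (hR : Principal v R)
    (b : MvPolynomial (Fin (N+1)) ℂ) (hb : InBSIdeal (tuple v a) b) :
    ∃ P : MvPolynomial (Fin (N+1)) ℂ,
      algebraMap _ (KK N) b * topZetaMulti v R = algebraMap _ (KK N) P := by
  have : NeZero r := ⟨by omega⟩
  obtain ⟨P, hP⟩ := eq_of_inBS v a b hb
  obtain ⟨M, Cs, hM⟩ := relW_of_eq hr (vp_ind hv) a ha b P hP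
  refine (RpM_zeta v R).final b (M * ∑ i, ∑ j, vp v j i) fun m hm => ?_
  obtain ⟨p, hp, hrel⟩ := hM m
  rcases Nat.eq_zero_or_pos N with hN | hN
  · -- no variables: `v` is not affinely independent
    exfalso
    subst hN
    have hinj := hv.injective (a₁ := (⟨0, by omega⟩ : Fin r)) (a₂ := ⟨1, by omega⟩)
      (by funext i; exact i.elim0)
    simp at hinj
  obtain ⟨Q, hQ⟩ := mainW (vp v) (vp_ind hv) (fun j h => by
      have := congrFun h ⟨0, hN⟩
      simp [vp] at this) R (principal_vp v R hR) M Cs (mw m) (fun i => by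
      have h1 : M * ∑ j, vp v j i ≤ M * ∑ i, ∑ j, vp v j i :=
        Nat.mul_le_mul_left _ (Finset.single_le_sum (f := fun i => ∑ j, vp v j i)
          (fun _ _ => Nat.zero_le _) (Finset.mem_univ i))
      have h2 := h1.trans (hm i)
      unfold mw
      have h3 : ((M * ∑ j, vp v j i : ℕ) : ℝ) ≤ (m i : ℝ) := by exact_mod_cast h2
      linarith) 1 one_ne_zero p hrel
  exact ⟨Q, fun s hs => by rw [hp]; exact hQ s hs⟩

end Pool.Agent.W423.MV
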