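import Pool.Agent.W423.MV.Defs

set_option autoImplicit false

namespace Pool.Agent.W423.MV

open MvPolynomial Pool.Agent.H628R4.TZ Pool.Agent.H628R4.TP Pool.Agent.W425.SM
open MeasureTheory Set Filter Topology

variable {r N : ℕ}

lemma lw_zero (μ : Fin N → ℝ) (s : ℝ) : lw μ s 0 = s := rfl

lemma lw_succ (μ : Fin N → ℝ) (s : ℝ) (i : Fin N) : lw μ s i.succ = μ i := rfl

lemma lw_pos (μ : Fin N → ℝ) (s : ℝ) (hs : 0 < s) (hμ : ∀ i, 0 < μ i) (i : Fin (N+1)) :
    0 < lw μ s i := by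
  refine Fin.cases ?_ (fun j => ?_) i
  · exact hs
  · exact hμ j

/-- one-dimensional Stokes with exponential growth -/
lemma one_dim_exp (g g' : ℝ → ℂ) (lam l : ℝ) (hl : l < lam) (hg : ∀ t, HasDerivAt g (g' t) t)
    (K K' : ℝ) (hK : ∀ t, ‖g t‖ ≤ K * Real.exp (l * t)) (hK' : ∀ t, ‖g' t‖ ≤ K' * Real.exp (l * t))
    (hc' : Continuous g') :
    ∫ t in Ioi (0:ℝ), ((Real.exp (-lam * t) : ℝ) : ℂ) * (lam * g t - g' t) = g 0 := by
  have hgc : Continuous g := continuous_iff_continuousAt.2 fun t => (hg t).continuousAt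
  have hexp : ∀ t, HasDerivAt (fun t : ℝ => ((Real.exp (-l * t) : ℝ) : ℂ))
      (((Real.exp (-l * t) * (-l) : ℝ)) : ℂ) t := by
    intro t
    have h2 : HasDerivAt (fun t : ℝ => Real.exp (-l * t)) (Real.exp (-l * t) * (-l)) t := by
      have := (hasDerivAt_id t).const_mul (-l)
      simpa using this.exp
    exact h2.ofReal_comp
  have key : ∀ t, Real.exp (-l * t) * Real.exp (l * t) = 1 := by
    intro t; rw [← Real.exp_add]; simp
  have h := one_dim (fun t => ((Real.exp (-l * t) : ℝ) : ℂ) * g t)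
    (fun t => ((Real.exp (-l * t) : ℝ) : ℂ) * (g' t - l * g t)) (lam - l) (by linarith)
    (fun t => by
      refine ((hexp t).mul (hg t)).congr_deriv ?_
      push_cast
      ring) K (K' + |l| * K)
    (fun t => by
      rw [norm_mul, Complex.norm_real, Real.norm_of_nonneg (Real.exp_pos _).le]
      calc _ ≤ Real.exp (-l * t) * (K * Real.exp (l * t)) :=
            mul_le_mul_of_nonneg_left (hK t) (Real.exp_pos _).le
        _ = K * (Real.exp (-l * t) * Real.exp (l * t)) := by ring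
        _ = K := by rw [key, mul_one])
    (fun t => by
      rw [norm_mul, Complex.norm_real, Real.norm_of_nonneg (Real.exp_pos _).le]
      have h1 : ‖g' t - l * g t‖ ≤ (K' + |l| * K) * Real.exp (l * t) := by
        refine (norm_sub_le _ _).trans ?_
        rw [norm_mul, Complex.norm_real, Real.norm_eq_abs, add_mul, mul_assoc]
        exact add_le_add (hK' t) (mul_le_mul_of_nonneg_left (hK t) (abs_nonneg _))
      calc _ ≤ Real.exp (-l * t) * ((K' + |l| * K) * Real.exp (l * t)) :=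
            mul_le_mul_of_nonneg_left h1 (Real.exp_pos _).le
        _ = (K' + |l| * K) * (Real.exp (-l * t) * Real.exp (l * t)) := by ring
        _ = K' + |l| * K := by rw [key, mul_one])
    (by
      have : Continuous (fun t : ℝ => ((Real.exp (-l * t) : ℝ) : ℂ)) := by fun_prop
      exact this.mul (hc'.sub (continuous_const.mul hgc)))
  have h0 : ((Real.exp (-l * 0) : ℝ) : ℂ) * g 0 = g 0 := by simp
  rw [h0] at h
  rw [← h]
  refine integral_congr_ae (Eventually.of_forall fun t => ?_)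
  simp only
  have h3 : Real.exp (-lam * t) = Real.exp (-(lam - l) * t) * Real.exp (-l * t) := by
    rw [← Real.exp_add]; congr 1; ring
  rw [h3]
  push_cast
  ring

/-- the honest integral over the face `S` -/
noncomputable def HW (v : Fin r → Fin N → ℕ) (ε : ℝ) (κ : Fin r → ℕ) (μ : Fin N → ℝ) (s : ℝ)
    (y0 : Fin r → ℝ) (S : Finset (Fin N)) (p : MvPolynomial (Fin r) ℂ) : ℂ :=
  ∫ x, wt (lw μ s) x * DD (pk ε κ) (Y (av v) y0 x) p
    ∂(Measure.pi (ms (S.map (Fin.succEmb N))))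

lemma HW_integrable (v : Fin r → Fin N → ℕ) (ε : ℝ) (hε : 0 < ε) (κ : Fin r → ℕ)
    (μ : Fin N → ℝ) (hμ : ∀ i, (ell v κ i : ℝ) < μ i) (s : ℝ)
    (hs : 0 < s) (y0 : Fin r → ℝ) (S : Finset (Fin N)) (p : MvPolynomial (Fin r) ℂ) :
    Integrable (fun x => wt (lw μ s) x * DD (pk ε κ) (Y (av v) y0 x) p)
      (Measure.pi (ms (S.map (Fin.succEmb N)))) := by
  obtain ⟨C, hC0, hC⟩ := DD_growth ε hε κ p
  set C1 : ℝ := ∑ j, (κ j : ℝ) * y0 j with hC1
  have hint := wt_integrable (S.map (Fin.succEmb N)) (lw (fun i => μ i - ell v κ i) s)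
    (lw_pos _ s hs fun i => by linarith [hμ i])
  refine Integrable.mono' (hint.norm.const_mul (C * Real.exp C1)) ?_ ?_
  · refine Continuous.aestronglyMeasurable ?_
    refine Continuous.mul ?_ ((DD_cont ε hε κ p).comp (Y_cont _ _))
    unfold wt
    fun_prop
  · filter_upwards [ae_ms (S.map (Fin.succEmb N))] with x hx
    obtain ⟨hx0, hxS⟩ := hx
    rw [norm_mul]
    have hw : ∀ lam : Fin (N+1) → ℝ, ‖wt lam x‖ = Real.exp (-∑ k, lam k * x k) := by
      intro lam
      rw [wt, ← Complex.ofReal_prod, Complex.norm_real, ← Real.exp_sum,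
        Real.norm_of_nonneg (Real.exp_pos _).le, ← Finset.sum_neg_distrib]
      congr 1
      exact Finset.sum_congr rfl fun k _ => by ring
    rw [hw, hw]
    refine (mul_le_mul_of_nonneg_left (hC _) (Real.exp_pos _).le).trans ?_
    rw [mul_comm C, ← mul_assoc, ← Real.exp_add, mul_comm C, mul_right_comm, ← Real.exp_add]
    refine mul_le_mul_of_nonneg_right (Real.exp_le_exp.2 ?_) hC0
    rw [sum_kap_Y, Fin.sum_univ_succ, Fin.sum_univ_succ]
    simp only [lw_zero, lw_succ, sub_mul, Finset.sum_sub_distrib]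
    have h6 : 0 ≤ (∑ j, (κ j : ℝ)) * x 0 := mul_nonneg (by positivity) (hx0 0)
    rw [hC1]
    linarith

/-- Stokes -/
lemma HW_step (v : Fin r → Fin N → ℕ) (ε : ℝ) (hε : 0 < ε) (κ : Fin r → ℕ)
    (μ : Fin N → ℝ) (hμ : ∀ i, (ell v κ i : ℝ) < μ i) (s : ℝ)
    (hs : 0 < s) (y0 : Fin r → ℝ) (S : Finset (Fin N)) (i : Fin N) (hi : i ∉ S)
    (p : MvPolynomial (Fin r) ℂ) :
    HW v ε κ μ s y0 S (elw μ v i * p) = HW v ε κ μ s y0 (insert i S) p := by
  unfold HW
  rw [pi_split _ i.succ _ (HW_integrable v ε hε κ μ hμ s hs y0 S _),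
    pi_split _ i.succ _ (HW_integrable v ε hε κ μ hμ s hs y0 (insert i S) _)]
  have hms : (fun j => ms ((insert i S).map (Fin.succEmb N)) (i.succ.succAbove j)) =
      fun j => ms (S.map (Fin.succEmb N)) (i.succ.succAbove j) := by
    funext j
    unfold ms
    have h1 : i.succ.succAbove j ≠ i.succ := Fin.succAbove_ne i.succ j
    congr 1
    simp [Finset.mem_map, Finset.mem_insert]
  rw [hms]
  refine integral_congr_ae (Eventually.of_forall fun x' => ?_)
  have hw : ∀ t : ℝ, wt (lw μ s) (i.succ.insertNth (α := fun _ => ℝ) t x') =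
      ((Real.exp (-(μ i) * t) : ℝ) : ℂ) *
        ∏ j, ((Real.exp (-lw μ s (i.succ.succAbove j) * x' j) : ℝ) : ℂ) := by
    intro t
    unfold wt
    rw [Fin.prod_univ_succAbove _ i.succ]
    simp [lw_succ]
  set w := ∏ j, ((Real.exp (-lw μ s (i.succ.succAbove j) * x' j) : ℝ) : ℂ) with hwdef
  have hmsi : ms (S.map (Fin.succEmb N)) i.succ = volume.restrict (Ioi 0) := by
    simp [ms, hi]
  have hmsi' : ms ((insert i S).map (Fin.succEmb N)) i.succ = Measure.dirac 0 := by simp [ms]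
  simp only [hmsi, hmsi']
  rw [integral_dirac]
  simp only [hw]
  -- bounds
  have hbd : ∀ q : MvPolynomial (Fin r) ℂ, ∃ K, ∀ t : ℝ,
      ‖DD (pk ε κ) (Y (av v) y0 (i.succ.insertNth (α := fun _ => ℝ) t x')) q‖ ≤
        K * Real.exp ((ell v κ i : ℝ) * t) := by
    intro q
    obtain ⟨C, hC0, hC⟩ := DD_growth ε hε κ q
    set B : ℝ := ∑ j, (κ j : ℝ) * Y (av v) y0 (i.succ.insertNth (α := fun _ => ℝ) 0 x') j with hB
    refine ⟨C * Real.exp B, fun t => (hC _).trans (le_of_eq ?_)⟩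
    have hlin : ∀ (j : Fin r), Y (av v) y0 (i.succ.insertNth (α := fun _ => ℝ) t x') j =
        Y (av v) y0 (i.succ.insertNth (α := fun _ => ℝ) 0 x') j + (v j i : ℝ) * t := by
      intro j
      unfold Y
      rw [Fin.sum_univ_succAbove _ i.succ, Fin.sum_univ_succAbove _ i.succ]
      simp only [Fin.insertNth_apply_same, Fin.insertNth_apply_succAbove]
      simp only [av, Fin.cons_succ]
      ring
    have hexp : ∑ j, (κ j : ℝ) * Y (av v) y0 (i.succ.insertNth (α := fun _ => ℝ) t x') j =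
        B + (ell v κ i : ℝ) * t := by
      simp only [hlin, mul_add, Finset.sum_add_distrib, hB]
      congr 1
      unfold ell
      push_cast
      rw [Finset.sum_mul]
      exact Finset.sum_congr rfl fun j _ => by ring
    rw [hexp, Real.exp_add]
    ring
  obtain ⟨K, hK⟩ := hbd p
  obtain ⟨K', hK'⟩ := hbd (Lf (fun j => (v j i : ℝ)) * p)
  have hcont : Continuous (fun t : ℝ => Y (av v) y0 (i.succ.insertNth (α := fun _ => ℝ) t x')) := by
    refine continuous_pi fun j => ?_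
    exact continuous_iff_continuousAt.2 fun t => (insertNth_Y v y0 i x' j t).continuousAt
  have h6 := one_dim_exp
    (fun t => DD (pk ε κ) (Y (av v) y0 (i.succ.insertNth (α := fun _ => ℝ) t x')) p)
    (fun t => -(DD (pk ε κ) (Y (av v) y0 (i.succ.insertNth (α := fun _ => ℝ) t x'))
      (Lf (fun j => (v j i : ℝ)) * p)))
    (μ i) (ell v κ i) (hμ i) (fun t => DD_hasDerivAt ε hε κ p (fun j => (v j i : ℝ)) _ t
      (fun j => insertNth_Y v y0 i x' j t)) K K'
    (fun t => hK _) (fun t => by rw [norm_neg]; exact hK' _)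
    ((DD_cont ε hε κ _).comp hcont).neg
  have h7 : ∀ t : ℝ, (((Real.exp (-(μ i) * t) : ℝ) : ℂ) * w) *
      DD (pk ε κ) (Y (av v) y0 (i.succ.insertNth (α := fun _ => ℝ) t x')) (elw μ v i * p) =
      w * (((Real.exp (-(μ i) * t) : ℝ) : ℂ) *
        (((μ i : ℝ) : ℂ) * DD (pk ε κ) (Y (av v) y0 (i.succ.insertNth (α := fun _ => ℝ) t x')) p -
        -(DD (pk ε κ) (Y (av v) y0 (i.succ.insertNth (α := fun _ => ℝ) t x'))
          (Lf (fun j => (v j i : ℝ)) * p)))) := by
    intro t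
    rw [elw, add_mul, map_add, C_mul', map_smul, smul_eq_mul]
    ring
  simp only [h7]
  rw [integral_const_mul, h6]
  simp

lemma HW_sum (v : Fin r → Fin N → ℕ) (ε : ℝ) (hε : 0 < ε) (κ : Fin r → ℕ)
    (μ : Fin N → ℝ) (hμ : ∀ i, (ell v κ i : ℝ) < μ i) (s : ℝ)
    (hs : 0 < s) (y0 : Fin r → ℝ) (S : Finset (Fin N)) {ι : Type*}
    (t : Finset ι) (p : ι → MvPolynomial (Fin r) ℂ) :
    HW v ε κ μ s y0 S (∑ c ∈ t, p c) = ∑ c ∈ t, HW v ε κ μ s y0 S (p c) := by
  unfold HW
  simp only [map_sum, Finset.mul_sum]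
  exact integral_finsetSum _ fun c _ => HW_integrable v ε hε κ μ hμ s hs y0 S _

lemma HW_steps (v : Fin r → Fin N → ℕ) (ε : ℝ) (hε : 0 < ε) (κ : Fin r → ℕ)
    (μ : Fin N → ℝ) (hμ : ∀ i, (ell v κ i : ℝ) < μ i) (s : ℝ)
    (hs : 0 < s) (y0 : Fin r → ℝ) (B : Finset (Fin N)) :
    ∀ (S : Finset (Fin N)) (p : MvPolynomial (Fin r) ℂ), Disjoint B S →
      HW v ε κ μ s y0 S ((∏ i ∈ B, elw μ v i) * p) = HW v ε κ μ s y0 (B ∪ S) p := by
  classical
  induction B using Finset.induction_on with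
  | empty => intro S p _; simp
  | insert i B hi ih =>
    intro S p hB
    rw [Finset.disjoint_insert_left] at hB
    rw [Finset.prod_insert hi, mul_assoc, HW_step v ε hε κ μ hμ s hs y0 S i hB.1, ih _ _
      (by rw [Finset.disjoint_insert_right]; exact ⟨hi, hB.2⟩), Finset.insert_union,
      Finset.union_insert]

lemma killedW (v : Fin r → Fin N → ℕ) (ε : ℝ) (hε : 0 < ε) (κ : Fin r → ℕ) (M : ℕ)
    (hκ : ∀ j, κ j ≤ M) (μ : Fin N → ℝ) (s T δ : ℝ) (c : Fin r → ℤ) (hc : ∑ j, c j = 1)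
    (hT : (ε + |δ|) * (∑ j, |(c j : ℝ)| + ∑ i, |∑ j, (c j : ℝ) * (v j i : ℝ)|) < T)
    (S : Finset (Fin N)) (q : MvPolynomial (Fin r) ℂ) (hS : Bc v c ⊆ S) :
    HW v ε κ μ s (yT v T δ) S (q * ∏ j, (if c j < 0 then X j * dm M j else 1)) = 0 := by
  classical
  unfold HW
  refine integral_eq_zero_of_ae ?_
  filter_upwards [ae_ms (S.map (Fin.succEmb N))] with x hx
  obtain ⟨hx0, hxS⟩ := hx
  set y := Y (av v) (yT v T δ) x with hy
  by_contra hne
  have hne' : DD (pk ε κ) y (q * ∏ j, (if c j < 0 then X j * dm M j else 1)) ≠ 0 := by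
    intro h
    apply hne
    simp only [Pi.zero_apply]
    rw [h, mul_zero]
  have h1 : ∀ j, 0 ≤ y j := by
    intro j
    by_contra h
    exact hne' (DD_neg ε hε κ y j (not_le.1 h) _)
  have h2 : ∀ j, c j < 0 → y j ≤ ε := by
    intro j hj
    by_contra h
    apply hne'
    have h3 : (X j + C ((κ j : ℕ) : ℂ)) ∣ q * ∏ j, (if c j < 0 then X j * dm M j else 1) := by
      refine Dvd.dvd.mul_left ?_ q
      refine (Xdm_dvd M j (κ j) (hκ j)).trans ?_
      have := Finset.dvd_prod_of_mem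
        (fun j => (if c j < 0 then X j * dm M j else 1 : MvPolynomial (Fin r) ℂ)) (Finset.mem_univ j)
      simpa [hj] using this
    obtain ⟨w, hw⟩ := h3
    rw [hw]
    exact DD_tail ε hε κ y j (not_le.1 h) w
  have h3 : -(ε * ∑ j, |(c j : ℝ)|) ≤ ∑ j, (c j : ℝ) * y j := by
    rw [Finset.mul_sum, ← Finset.sum_neg_distrib]
    refine Finset.sum_le_sum fun j _ => ?_
    rcases lt_or_ge (c j) 0 with h | h
    · have h' : (c j : ℝ) < 0 := by exact_mod_cast h
      rw [abs_of_neg h']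
      nlinarith [h2 j h]
    · have h' : (0:ℝ) ≤ c j := by exact_mod_cast h
      rw [abs_of_nonneg h']
      nlinarith [h1 j, mul_nonneg h' (h1 j), mul_nonneg hε.le h']
  have hcR : ∑ j, (c j : ℝ) = 1 := by exact_mod_cast hc
  have h4 : ∑ j, (c j : ℝ) * y j = ∑ i : Fin N, (∑ j, (c j : ℝ) * v j i) * x i.succ - (x 0 + T) -
      δ * ∑ i : Fin N, (∑ j, (c j : ℝ) * v j i) := by
    have : ∀ j, (c j : ℝ) * y j = ∑ i, (c j : ℝ) * v j i * x i.succ - (c j : ℝ) * (x 0 + T) -
        δ * ∑ i, (c j : ℝ) * v j i := by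
      intro j
      rw [hy, Y_av', yT, ← Finset.mul_sum]
      simp only [mul_assoc]
      rw [← Finset.mul_sum]
      ring
    simp only [this]
    rw [Finset.sum_sub_distrib, Finset.sum_sub_distrib, ← Finset.sum_mul, hcR, one_mul,
      ← Finset.mul_sum, Finset.sum_comm, Finset.sum_comm (s := Finset.univ (α := Fin r))
        (f := fun j i => (c j : ℝ) * (v j i : ℝ))]
    congr 2
    exact Finset.sum_congr rfl fun i _ => by rw [Finset.sum_mul]
  have h5 : ∑ i : Fin N, (∑ j, (c j : ℝ) * v j i) * x i.succ ≤ 0 := by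
    refine Finset.sum_nonpos fun i _ => ?_
    rcases lt_or_ge 0 (∑ j, c j * (v j i : ℤ)) with h | h
    · have hiS : i ∈ S := hS (by simp [Bc, h])
      rw [hxS i.succ (by simp [hiS]), mul_zero]
    · have h' : (∑ j, (c j : ℝ) * v j i) ≤ 0 := by exact_mod_cast h
      exact mul_nonpos_of_nonpos_of_nonneg h' (hx0 _)
  have h6 := hx0 0
  have h7 : -(δ * ∑ i : Fin N, (∑ j, (c j : ℝ) * v j i)) ≤
      |δ| * ∑ i, |∑ j, (c j : ℝ) * (v j i : ℝ)| := by
    refine (neg_le_abs _).trans ?_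
    rw [abs_mul]
    exact mul_le_mul_of_nonneg_left (Finset.abs_sum_le_sum_abs _ _) (abs_nonneg _)
  have h8 : 0 ≤ ε * ∑ i, |∑ j, (c j : ℝ) * (v j i : ℝ)| := by positivity
  have h9 : 0 ≤ |δ| * ∑ j, |(c j : ℝ)| := by positivity
  nlinarith

/-- **The functional kills `k * p(∑ X_j)`.** -/
theorem killsW (v : Fin r → Fin N → ℕ) (M : ℕ) (Cs : Finset (Fin r → ℤ)) (μ : Fin N → ℝ)
    (hμ : ∀ i, ((M * ∑ j, v j i : ℕ) : ℝ) < μ i) (p : Polynomial ℂ) (hR : RelW μ v M Cs p)
    (k : MvPolynomial (Fin r) ℂ) :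
    ∃ K0 : ℝ, 0 ≤ K0 ∧ ∀ ε > 0, ∀ δ T : ℝ, (ε + |δ|) * K0 < T → ∀ s : ℝ, 0 < s →
      Φ (ph ε) ∅ (lw μ s) (av v) (yT v T δ)
        (k * Polynomial.aeval (∑ j, X j : MvPolynomial (Fin r) ℂ) p) = 0 := by
  classical
  obtain ⟨q, hc, hrel⟩ := hR
  obtain ⟨cf, hcf⟩ := DD_sum (r := r) M
  set KK := Fintype.piFinset (fun _ : Fin r => Finset.range (M+1)) with hKK
  refine ⟨∑ c ∈ Cs, (∑ j, |(c j : ℝ)| + ∑ i, |∑ j, (c j : ℝ) * (v j i : ℝ)|),
    by positivity, fun ε hε δ T hT s hs => ?_⟩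
  have hμκ : ∀ κ ∈ KK, ∀ i, (ell v κ i : ℝ) < μ i := by
    intro κ hκ i
    refine lt_of_le_of_lt ?_ (hμ i)
    have : ell v κ i ≤ M * ∑ j, v j i := by
      unfold ell
      rw [Finset.mul_sum]
      refine Finset.sum_le_sum fun j _ => Nat.mul_le_mul_right _ ?_
      have := (Fintype.mem_piFinset.1 hκ) j
      rw [Finset.mem_range] at this
      omega
    exact_mod_cast this
  have hzero : ∀ κ ∈ KK, HW v ε κ μ s (yT v T δ) ∅
      ((k * Polynomial.aeval (∑ j, X j : MvPolynomial (Fin r) ℂ) p) * ∏ j, dm M j) = 0 := by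
    intro κ hκ
    have hκM : ∀ j, κ j ≤ M := fun j => by
      have := (Fintype.mem_piFinset.1 hκ) j
      rw [Finset.mem_range] at this
      omega
    have h3 : (k * Polynomial.aeval (∑ j, X j : MvPolynomial (Fin r) ℂ) p) * ∏ j, dm M j =
        ∑ c ∈ Cs, (∏ i ∈ Bc v c, elw μ v i) *
          ((k * q c) * ∏ j, (if c j < 0 then X j * dm M j else 1)) := by
      rw [mul_assoc, hrel, Finset.mul_sum]
      exact Finset.sum_congr rfl fun c _ => by ring
    rw [h3, HW_sum v ε hε κ μ (hμκ κ hκ) s hs]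
    refine Finset.sum_eq_zero fun c hcc => ?_
    rw [HW_steps v ε hε κ μ (hμκ κ hκ) s hs _ _ _ _ (Finset.disjoint_empty_right _)]
    refine killedW v ε hε κ M hκM μ s T δ c (hc c hcc) (lt_of_le_of_lt ?_ hT) _ _
      Finset.subset_union_left
    refine mul_le_mul_of_nonneg_left ?_ (by positivity)
    exact Finset.single_le_sum (f := fun c : Fin r → ℤ =>
      (∑ j, |(c j : ℝ)| + ∑ i, |∑ j, (c j : ℝ) * (v j i : ℝ)|)) (fun c _ => by positivity) hcc
  have hfin : Φ (ph ε) ∅ (lw μ s) (av v) (yT v T δ)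
        (k * Polynomial.aeval (∑ j, X j : MvPolynomial (Fin r) ℂ) p) =
      ∑ κ ∈ KK, (∏ j, cf (κ j)) * HW v ε κ μ s (yT v T δ) ∅
        ((k * Polynomial.aeval (∑ j, X j : MvPolynomial (Fin r) ℂ) p) * ∏ j, dm M j) := by
    unfold Φ HW
    simp only [← integral_const_mul]
    rw [Finset.map_empty, ← integral_finsetSum]
    · refine integral_congr_ae (Eventually.of_forall fun x => ?_)
      simp only
      rw [← hcf ε hε, Finset.mul_sum]
      exact Finset.sum_congr rfl fun κ _ => by ring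
    · intro κ hκ
      have := HW_integrable v ε hε κ μ (hμκ κ hκ) s hs (yT v T δ) ∅
        ((k * Polynomial.aeval (∑ j, X j : MvPolynomial (Fin r) ℂ) p) * ∏ j, dm M j)
      rw [Finset.map_empty] at this
      exact this.const_mul _
  rw [hfin]
  exact Finset.sum_eq_zero fun κ hκ => by rw [hzero κ hκ, mul_zero]

end Pool.Agent.W423.MV
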