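import Pool.Agent.W423.MV.C3
import Pool.Agent.W423.MV.HW

set_option autoImplicit false

namespace Pool.Agent.W423.MV

open MvPolynomial Pool.Agent.H628R4.TZ Pool.Agent.H628R4.TP Pool.Agent.W425.SM
open MeasureTheory Set Filter Topology

variable {r N : ℕ}

/-- the value of the functional on a squarefree monomial -/
lemma Φ_XJW (v : Fin r → Fin N → ℕ) (μ : Fin N → ℝ) (K α s : ℝ) (m : ℕ) (J : Finset (Fin r)) :
    Φ (ph (dl m ^ 2)) ∅ (lw μ s) (av v) (yz v K α m) (∏ j ∈ J, X j) =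
      (-1) ^ J.card * ∫ x, integW v μ K α s J m x ∂(Measure.pi (ms (∅ : Finset (Fin (N+1))))) := by
  classical
  unfold Φ
  rw [← integral_const_mul]
  refine integral_congr_ae (Eventually.of_forall fun x => ?_)
  simp only [integW]
  have h1 : (∏ j ∈ J, X j : MvPolynomial (Fin r) ℂ) =
      monomial (Finsupp.equivFunOnFinite.symm fun j => if j ∈ J then 1 else 0) 1 := by
    rw [monomial_eq, C_1, one_mul, Finsupp.prod_fintype _ _ (by simp)]
    simp only [Finsupp.equivFunOnFinite_symm_apply_apply, pow_ite, pow_one, pow_zero]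
    rw [Finset.prod_ite_mem, Finset.univ_inter]
  rw [h1, D_monomial, one_mul, W]
  have h2 : ∀ j, ((ph (dl m ^ 2) ((Finsupp.equivFunOnFinite.symm
      fun j => if j ∈ J then 1 else 0 : Fin r →₀ ℕ) j) (Y (av v) (yz v K α m) x j) : ℝ) : ℂ) =
      (if j ∈ J then (-1 : ℂ) else 1) * (((if j ∈ J then -ph (dl m ^ 2) 1 (ymap v x j + yz v K α m j)
      else ph (dl m ^ 2) 0 (ymap v x j + yz v K α m j) : ℝ)) : ℂ) := by
    intro j
    rw [Y_ymap]
    by_cases hj : j ∈ J <;> simp [hj]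
  rw [Complex.ofReal_prod]
  simp only [h2]
  rw [Finset.prod_mul_distrib]
  have h3 : (∏ j, if j ∈ J then (-1 : ℂ) else 1) = (-1) ^ J.card := by
    rw [Finset.prod_ite_mem, Finset.univ_inter, Finset.prod_const]
  rw [h3]
  ring

lemma Φ_indepW (φ : ℕ → ℝ → ℝ) (μ : Fin N → ℝ) (s : ℝ) (a : Fin r → Fin (N+1) → ℝ)
    (y0 : Fin r → ℝ) (p : MvPolynomial (Fin r) ℂ) :
    Φ φ {0} (lw μ s) a y0 p = Φ φ {0} (lw μ 1) a y0 p := by
  unfold Φ
  refine integral_congr_ae ?_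
  filter_upwards [ae_ms (M := N+1) {0}] with x hx
  have h0 : x 0 = 0 := hx.2 0 (by simp)
  have : wt (lw μ s) x = wt (lw μ 1) x := by
    unfold wt
    rw [Fin.prod_univ_succ, Fin.prod_univ_succ, h0]
    simp [lw]
  simp only [this]

noncomputable def PeW (v : Fin r → Fin N → ℕ) (μ : Fin N → ℝ) (y0 : Fin r → ℝ) (ε : ℝ)
    (kk : MvPolynomial (Fin r) ℂ) (b : Polynomial ℂ) : Polynomial ℂ :=
  ∑ k ∈ Finset.range (b.natDegree + 1), ∑ i ∈ Finset.range k,
    Polynomial.monomial i (b.coeff k *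
      Φ (ph ε) {0} (lw μ 1) (av v) y0
        (kk * (∑ j, X j : MvPolynomial (Fin r) ℂ) ^ (k - 1 - i)))

lemma PeW_natDegree (v : Fin r → Fin N → ℕ) (μ : Fin N → ℝ) (y0 : Fin r → ℝ) (ε : ℝ)
    (kk : MvPolynomial (Fin r) ℂ) (b : Polynomial ℂ) :
    (PeW v μ y0 ε kk b).natDegree ≤ b.natDegree := by
  unfold PeW
  refine Polynomial.natDegree_sum_le_of_forall_le _ _ fun k hk => ?_
  refine Polynomial.natDegree_sum_le_of_forall_le _ _ fun i hi => ?_
  refine (Polynomial.natDegree_monomial_le _).trans ?_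
  simp only [Finset.mem_range] at hk hi
  omega

lemma PeW_eval (v : Fin r → Fin N → ℕ) (μ : Fin N → ℝ) (hμ : ∀ i, 0 < μ i) (y0 : Fin r → ℝ)
    (ε : ℝ) (kk : MvPolynomial (Fin r) ℂ) (b : Polynomial ℂ) (s : ℝ) (hε : 0 < ε) (hs : 0 < s)
    (h0 : Φ (ph ε) ∅ (lw μ s) (av v) y0
        (kk * Polynomial.aeval (∑ j, X j : MvPolynomial (Fin r) ℂ) b) = 0) :
    b.eval (s : ℂ) * Φ (ph ε) ∅ (lw μ s) (av v) y0 kk =
      (PeW v μ y0 ε kk b).eval (s : ℂ) := by
  have lpos := lw_pos μ s hs hμ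
  have lpos1 := lw_pos μ 1 one_pos hμ
  set σ : MvPolynomial (Fin r) ℂ := ∑ j, X j with hσ
  set β : MvPolynomial (Fin r) ℂ := ∑ k ∈ Finset.range (b.natDegree + 1),
    C (b.coeff k) * ∑ i ∈ Finset.range k, (C (s:ℂ)) ^ i * (kk * σ ^ (k - 1 - i)) with hβ
  have h1 : C (b.eval (s:ℂ)) * kk = kk * Polynomial.aeval σ b + (C (s:ℂ) - σ) * β := by
    have h2 : (C (b.eval (s:ℂ)) : MvPolynomial (Fin r) ℂ) =
        ∑ k ∈ Finset.range (b.natDegree + 1), C (b.coeff k) * (C (s:ℂ)) ^ k := by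
      rw [Polynomial.eval_eq_sum_range, map_sum]
      exact Finset.sum_congr rfl fun k _ => by rw [map_mul, map_pow]
    have h3 : Polynomial.aeval σ b = ∑ k ∈ Finset.range (b.natDegree + 1),
        C (b.coeff k) * σ ^ k := by
      rw [Polynomial.aeval_eq_sum_range]
      exact Finset.sum_congr rfl fun k _ => by rw [C_mul']
    have hβ' : β = kk * ∑ k ∈ Finset.range (b.natDegree + 1),
        C (b.coeff k) * ∑ i ∈ Finset.range k, (C (s:ℂ)) ^ i * σ ^ (k - 1 - i) := by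
      rw [hβ, Finset.mul_sum]
      refine Finset.sum_congr rfl fun k _ => ?_
      rw [mul_left_comm, Finset.mul_sum (a := kk)]
      congr 1
      exact Finset.sum_congr rfl fun i _ => by ring
    have h5 : (C (b.eval (s:ℂ)) : MvPolynomial (Fin r) ℂ) = Polynomial.aeval σ b +
        (C (s:ℂ) - σ) * ∑ k ∈ Finset.range (b.natDegree + 1),
        C (b.coeff k) * ∑ i ∈ Finset.range k, (C (s:ℂ)) ^ i * σ ^ (k - 1 - i) := by
      rw [h2, h3, Finset.mul_sum, ← Finset.sum_add_distrib]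
      refine Finset.sum_congr rfl fun k _ => ?_
      have h4 := geom_sum₂_mul (C (s:ℂ) : MvPolynomial (Fin r) ℂ) σ k
      linear_combination (-C (b.coeff k)) * h4
    rw [hβ', h5]
    ring
  have h5 : C (s:ℂ) - σ = C ((lw μ s 0 : ℝ) : ℂ) + Lf (fun j => av v j 0) := by
    simp [lw, Lf, av, hσ, sub_eq_add_neg, Finset.sum_neg_distrib]
  rw [← Φ_C_mul, h1, Φ_add (ph_dseq ε hε) _ _ lpos, h0, zero_add, h5,
    Φ_step (ph_dseq ε hε) ∅ _ lpos _ _ 0 (by simp)]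
  have h6 : (insert 0 ∅ : Finset (Fin (N+1))) = {0} := rfl
  rw [h6, Φ_indepW, hβ, Φ_sum (ph_dseq ε hε) _ _ lpos1]
  unfold PeW
  rw [Polynomial.eval_finsetSum]
  refine Finset.sum_congr rfl fun k _ => ?_
  rw [Φ_C_mul, Φ_sum (ph_dseq ε hε) _ _ lpos1, Polynomial.eval_finsetSum,
    Finset.mul_sum]
  refine Finset.sum_congr rfl fun i _ => ?_
  rw [← map_pow, Φ_C_mul, Polynomial.eval_monomial]
  ring

/-- **`p(s) limJ(s)` is a polynomial.** -/
theorem pJW [NeZero r] (v : Fin r → Fin N → ℕ) (hv : Ind v) (R : SmoothFan N)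
    (hPr : Principal v R) (M : ℕ) (Cs : Finset (Fin r → ℤ)) (μ : Fin N → ℝ)
    (hμ : ∀ i, ((M * ∑ j, v j i : ℕ) : ℝ) < μ i) (α : ℝ) (hα : α ≠ 0) (p : Polynomial ℂ)
    (hR : RelW μ v M Cs p) (J : Finset (Fin r)) (hJ : J.Nonempty) :
    ∃ Q : Polynomial ℂ, ∀ s : ℝ, 1 ≤ s →
      p.eval (s : ℂ) * limJW v μ R α s J = Q.eval (s : ℂ) := by
  have hμ0 : ∀ i, 0 < μ i := fun i => lt_of_le_of_lt (Nat.cast_nonneg _) (hμ i)
  obtain ⟨K0, hK0, hkill⟩ := killsW v M Cs μ hμ p hR (∏ j ∈ J, X j)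
  set K : ℝ := (1 + |α|) * K0 + 1 with hK
  have hKpos : 0 < K := by positivity
  obtain ⟨Q, hQ⟩ := limit_poly'
    (fun m => PeW v μ (yz v K α m) (dl m ^ 2) (∏ j ∈ J, X j) p) p.natDegree
    (fun m => PeW_natDegree _ _ _ _ _ _)
    (fun s => p.eval (s : ℂ) * ((-1) ^ J.card * limJW v μ R α s J)) 1 (by
      intro s hs
      have hs' : 0 < s := one_pos.trans_le hs
      have h1 := ((conv_W v hv R hPr μ hμ0 α hα K hKpos s hs' J hJ).const_mul
        ((-1 : ℂ) ^ J.card)).const_mul (p.eval (s : ℂ))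
      refine h1.congr fun m => ?_
      rw [← Φ_XJW]
      refine PeW_eval v μ hμ0 _ _ _ p s (pow_pos (dl_pos m) 2) hs' ?_
      rw [yz_eq]
      refine hkill _ (pow_pos (dl_pos m) 2) _ _ ?_ s hs'
      have hd := dl_pos m
      have hd1 := dl_le m
      rw [abs_mul, abs_of_pos hd, hK]
      have h2 : dl m ^ 2 ≤ dl m := by nlinarith
      have h3 : (dl m ^ 2 + |α| * dl m) * K0 ≤ (dl m + |α| * dl m) * K0 :=
        mul_le_mul_of_nonneg_right (by linarith) hK0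
      nlinarith)
  refine ⟨Polynomial.C ((-1) ^ J.card) * Q, fun s hs => ?_⟩
  rw [Polynomial.eval_mul, Polynomial.eval_C, ← hQ s hs]
  have h1 : ((-1 : ℂ) ^ J.card) * (-1) ^ J.card = 1 := by
    rw [← mul_pow]; simp
  linear_combination (-(p.eval (s : ℂ)) * limJW v μ R α s J) * h1

end Pool.Agent.W423.MV
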