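import Pool.Agent.W423.MV.Defs

set_option autoImplicit false

/-! From the functional equation to the algebraic relation. -/

namespace Pool.Agent.W423.MV

open MvPolynomial Pool.Agent.H628R4.TZ Pool.Agent.W425.SM
open Pool.Agent.H628R4.TP (weylS)
open Pool.Agent.W525.SM

variable {r N : ℕ}

/-- the point `(n, m_1 + n, …, m_N + n)` -/
def pt (m : Fin N → ℕ) (n : ℕ) : Fin (N+1) → ℕ := Fin.cons n (fun i => m i + n)

/-- the exponent vector `m` -/
noncomputable def mh (m : Fin N → ℕ) : Fin N →₀ ℕ := Finsupp.equivFunOnFinite.symm m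

lemma mh_apply (m : Fin N → ℕ) (i : Fin N) : mh m i = m i := rfl

/-- the weight of `β` -/
noncomputable def ss (m : Fin N → ℕ) (n : ℕ) (β : Fin (N+1) →₀ ℕ) : ℂ :=
  ∏ j, ((pt m n j : ℕ) : ℂ) ^ β j

lemma pow_expand_m (v : Fin r → Fin N → ℕ) (a : Fin r → ℂ) (m : Fin N → ℕ) (n : ℕ) :
    monomial (mh m) 1 * sparse v a ^ n =
      ∑ u ∈ Finset.piAntidiag Finset.univ n, monomial (mh m + Ex v u) (cf a u) := by
  rw [pow_expand, Finset.mul_sum]
  refine Finset.sum_congr rfl fun u _ => ?_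
  rw [monomial_mul, one_mul]

/-- The numerical relation. -/
theorem num_relW {v : Fin r → Fin N → ℕ} (hv : Ind v) (a : Fin r → ℂ) (ha : ∀ j, a j ≠ 0)
    (b : MvPolynomial (Fin (N+1)) ℂ) (P : (Fin (N+1) →₀ ℕ) →₀ weyl N)
    (hP : ∀ (m : Fin N → ℕ) (n : ℕ),
      C (eval (fun j => ((pt m n j : ℕ) : ℂ)) b) * (monomial (mh m) 1 * sparse v a ^ n) =
        applyAt P (pt m n) (monomial (mh m) 1 * sparse v a ^ (n + 1))) :
    ∃ (M : ℕ) (S : Finset (Fin r → ℤ)) (T : Finset (Fin (N+1) →₀ ℕ))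
      (q : (Fin (N+1) →₀ ℕ) → (Fin r → ℤ) → MvPolynomial (Fin N) ℂ),
      (∀ c ∈ S, ∑ j, c j = 1) ∧
      ∀ (m : Fin N → ℕ) (u : Fin r → ℕ),
        eval (fun j => ((pt m (∑ j, u j) j : ℕ) : ℂ)) b *
            ∏ j, eval (fun m => (u m : ℂ)) (dm M j) =
          (((∑ j, u j : ℕ) : ℂ) + 1) * ∑ c ∈ S,
          (∏ j, a j ^ c j) *
          (∏ j, eval (fun m => (u m : ℂ)) (ff M j (c j) * fq M j (c j))) *
          (∏ i, (((m i + ∑ j, u j * v j i : ℕ) + Sh v c i).toNat.descFactorial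
            (Sh v c i).toNat : ℂ)) *
          ∑ β ∈ T, ss m (∑ j, u j) β *
            eval (fun x => ((m x + Ex v u x : ℕ) : ℂ) + ((Sh v c x : ℤ) : ℂ)) (q β c) := by
  classical
  choose Q hQf hQ using fun (T : weyl N) =>
    Pool.Agent.H628R4.TP.act_weyl (T : Module.End ℂ (MvPolynomial (Fin N) ℂ))
      (show (T : Module.End ℂ (MvPolynomial (Fin N) ℂ)) ∈ weylS (Fin N) from T.2)
  have hfin : ({c : Fin r → ℤ | ∑ j, c j = 1 ∧
      ∃ m ∈ P.support, Q (P m) (Sh v c) ≠ 0} : Set _).Finite := by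
    have h1 : ((⋃ m ∈ P.support, ({c : Fin r → ℤ | ∑ j, c j = 1} ∩
        (Sh v) ⁻¹' Function.support (Q (P m)))) : Set _).Finite :=
      Set.Finite.biUnion P.support.finite_toSet fun m _ => by
        rw [Set.inter_comm]
        exact Set.Finite.of_finite_image (((hQf (P m))).subset (by
          rintro _ ⟨c, hc, rfl⟩
          exact hc.1)) ((Sh_inj hv).mono Set.inter_subset_right)
    refine h1.subset fun c hc => ?_
    obtain ⟨h0, m, hm, hq⟩ := hc
    simp only [Set.mem_iUnion]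
    exact ⟨m, hm, h0, hq⟩
  obtain ⟨M, hM⟩ : ∃ M : ℕ, ∀ c ∈ hfin.toFinset, ∀ j, c j ≤ M := by
    refine ⟨∑ c ∈ hfin.toFinset, ∑ j, (c j).toNat, fun c hc j => ?_⟩
    have h1 : (c j).toNat ≤ ∑ j, (c j).toNat :=
      Finset.single_le_sum (f := fun j => (c j).toNat) (fun _ _ => Nat.zero_le _)
        (Finset.mem_univ j)
    have h2 : ∑ j, (c j).toNat ≤ ∑ c ∈ hfin.toFinset, ∑ j, (c j).toNat :=
      Finset.single_le_sum (f := fun c : Fin r → ℤ => ∑ j, (c j).toNat)
        (fun _ _ => Nat.zero_le _) hc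
    omega
  refine ⟨M, hfin.toFinset, P.support, fun m c => Q (P m) (Sh v c), fun c hc => ?_,
    fun μ u => ?_⟩
  · exact ((Set.Finite.mem_toFinset hfin).1 hc).1
  set n := ∑ j, u j with hn
  have h1 := congrArg (coeff (mh μ + Ex v u)) (hP μ n)
  rw [coeff_C_mul, coeff_monomial_mul, one_mul, hn, coeff_pow hv a u, ← hn, applyAt, Finsupp.sum,
    coeff_sum] at h1
  -- the coefficient for the shift
  set F : (Fin r → ℕ) → ℂ := fun γ =>
    cf a γ * ∑ m ∈ P.support, ss μ n m *
      (eval (fun x => (((mh μ + Ex v γ) x : ℕ) : ℂ)) (Q (P m) (Sh v fun j => (γ j : ℤ) - u j)) *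
      ∏ x, (((mh μ + Ex v γ) x).descFactorial
        (Sh v (fun j => (γ j : ℤ) - u j) x).toNat : ℂ)) with hF
  have hsh : ∀ γ : Fin r → ℕ, ∀ x, (((mh μ + Ex v γ) x : ℕ) : ℤ) =
      ((mh μ + Ex v u) x : ℕ) + Sh v (fun j => (γ j : ℤ) - u j) x := by
    intro γ x
    rw [Finsupp.add_apply, Finsupp.add_apply, Ex_apply, Ex_apply, Sh]
    push_cast
    rw [add_assoc, ← Finset.sum_add_distrib]
    congr 1
    exact Finset.sum_congr rfl fun j _ => by ring
  have h2 : eval (fun j => ((pt μ n j : ℕ) : ℂ)) b * cf a u =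
      ∑ γ ∈ Finset.piAntidiag Finset.univ (n+1), F γ := by
    rw [h1]
    have h3 : ∀ m ∈ P.support, coeff (mh μ + Ex v u) ((∏ j, ((pt μ n j : ℕ) : ℂ) ^ m j) •
        ((P m : weyl N) : Module.End ℂ _) (monomial (mh μ) 1 * sparse v a ^ (n+1))) =
        ∑ γ ∈ Finset.piAntidiag Finset.univ (n+1), ss μ n m * (cf a γ *
        (eval (fun x => (((mh μ + Ex v γ) x : ℕ) : ℂ)) (Q (P m) (Sh v fun j => (γ j : ℤ) - u j)) *
        ∏ x, (((mh μ + Ex v γ) x).descFactorial
          (Sh v (fun j => (γ j : ℤ) - u j) x).toNat : ℂ))) := by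
      intro m _
      rw [coeff_smul, smul_eq_mul, pow_expand_m, map_sum, coeff_sum, Finset.mul_sum]
      refine Finset.sum_congr rfl fun γ _ => ?_
      congr 1
      have h4 : (monomial (mh μ + Ex v γ) (cf a γ) : MvPolynomial (Fin N) ℂ) =
          (cf a γ) • monomial (mh μ + Ex v γ) 1 := by
        rw [smul_monomial, smul_eq_mul, mul_one]
      rw [h4, map_smul, coeff_smul, smul_eq_mul, hQ (P m) _ _ _ (hsh γ)]
    rw [Finset.sum_congr rfl h3, Finset.sum_comm]
    refine Finset.sum_congr rfl fun γ _ => ?_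
    rw [hF]
    simp only [Finset.mul_sum]
    exact Finset.sum_congr rfl fun m _ => by ring
  -- reindexing
  have h5 : ∑ γ ∈ Finset.piAntidiag Finset.univ (n+1), F γ = ∑ c ∈ hfin.toFinset,
      if ∀ j, 0 ≤ (u j : ℤ) + c j then F (fun j => ((u j : ℤ) + c j).toNat) else 0 := by
    rw [← Finset.sum_filter]
    have h6 : ∑ γ ∈ Finset.piAntidiag Finset.univ (n+1), F γ =
        ∑ γ ∈ (Finset.piAntidiag Finset.univ (n+1)).filter
          (fun γ => (fun j => (γ j : ℤ) - u j) ∈ hfin.toFinset), F γ := by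
      rw [Finset.sum_filter_of_ne]
      intro γ hγ hne
      rw [Set.Finite.mem_toFinset]
      refine ⟨?_, ?_⟩
      · rw [Finset.sum_sub_distrib]
        have h7 := mem_anti.1 hγ
        rw [← Nat.cast_sum, ← Nat.cast_sum, h7, ← hn]
        push_cast
        ring
      · by_contra hno
        push Not at hno
        apply hne
        rw [hF]
        simp only
        rw [Finset.sum_eq_zero, mul_zero]
        intro m hm
        rw [hno m hm]
        simp
    rw [h6]
    refine Finset.sum_bij' (fun γ _ => fun j => (γ j : ℤ) - u j)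
      (fun c _ => fun j => ((u j : ℤ) + c j).toNat) ?_ ?_ ?_ ?_ ?_
    · intro γ hγ
      rw [Finset.mem_filter] at hγ ⊢
      refine ⟨hγ.2, fun j => ?_⟩
      show 0 ≤ (u j : ℤ) + ((γ j : ℤ) - u j)
      omega
    · intro c hc
      rw [Finset.mem_filter] at hc ⊢
      have h9 := ((Set.Finite.mem_toFinset hfin).1 hc.1).1
      have h10 : ∀ j, ((((u j : ℤ) + c j).toNat : ℕ) : ℤ) = (u j : ℤ) + c j :=
        fun j => Int.toNat_of_nonneg (hc.2 j)
      refine ⟨mem_anti.2 ?_, ?_⟩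
      · have : ((∑ j, ((u j : ℤ) + c j).toNat : ℕ) : ℤ) = ((n + 1 : ℕ) : ℤ) := by
          rw [Nat.cast_sum, Finset.sum_congr rfl fun j _ => h10 j, Finset.sum_add_distrib,
            h9, ← Nat.cast_sum, ← hn]
          push_cast
          ring
        exact_mod_cast this
      · have : (fun j => ((((u j : ℤ) + c j).toNat : ℕ) : ℤ) - u j) = c := by
          funext j
          rw [h10]
          ring
        rw [this]
        exact hc.1
    · intro γ _
      funext j
      simp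
    · intro c hc
      rw [Finset.mem_filter] at hc
      funext j
      have := Int.toNat_of_nonneg (hc.2 j)
      simp only
      omega
    · intro γ _
      congr 1
      funext j
      simp
  -- clear the factorials
  have hmu : ((n.factorial : ℕ) : ℂ) = (∏ j, ((u j).factorial : ℂ)) *
      (Nat.multinomial Finset.univ u : ℂ) := by
    have := Nat.multinomial_spec Finset.univ u
    rw [← hn] at this
    rw [← this]
    push_cast
    ring
  have hn0 : ((n.factorial : ℂ)) ≠ 0 := by exact_mod_cast Nat.factorial_ne_zero _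
  have ha0 : (∏ j, a j ^ u j) ≠ 0 :=
    Finset.prod_ne_zero_iff.2 fun j _ => pow_ne_zero _ (ha j)
  have h12 : ((n + 1).factorial : ℂ) = ((n : ℂ) + 1) * (n.factorial : ℂ) := by
    rw [Nat.factorial_succ]; push_cast; ring
  have h13 : (∏ j, eval (fun m => (u m : ℂ)) (dm M j)) * ((n.factorial : ℂ) * ∏ j, a j ^ u j) =
      (∏ j, ((u j + M).factorial : ℂ)) * cf a u := by
    rw [hmu, cf, ← Finset.prod_congr rfl fun j _ => eval_dm u M j, Finset.prod_mul_distrib]
    ring
  refine mul_right_cancel₀ (mul_ne_zero hn0 ha0) ?_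
  rw [mul_assoc, h13, mul_left_comm, h2, h5, Finset.mul_sum, Finset.mul_sum, Finset.sum_mul]
  refine Finset.sum_congr rfl fun c hc => ?_
  split_ifs with hpos
  swap
  · push Not at hpos
    obtain ⟨j, hj⟩ := hpos
    have hz : ∏ j, eval (fun m => (u m : ℂ)) (ff M j (c j) * fq M j (c j)) = 0 :=
      Finset.prod_eq_zero (Finset.mem_univ j) (eval_fc_zero u M j (c j) hj)
    rw [hz]
    simp
  have h9 := ((Set.Finite.mem_toFinset hfin).1 hc).1
  have h10 : ∀ j, ((((u j : ℤ) + c j).toNat : ℕ) : ℤ) = (u j : ℤ) + c j :=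
    fun j => Int.toNat_of_nonneg (hpos j)
  set γ : Fin r → ℕ := fun j => ((u j : ℤ) + c j).toNat with hγ
  have hc' : (fun j => (γ j : ℤ) - u j) = c := by
    funext j
    rw [hγ]
    simp only
    rw [h10]
    ring
  have hγS : ∑ j, γ j = n + 1 := by
    have : ((∑ j, γ j : ℕ) : ℤ) = ((n + 1 : ℕ) : ℤ) := by
      rw [Nat.cast_sum, Finset.sum_congr rfl fun j _ => h10 j, Finset.sum_add_distrib,
        h9, ← Nat.cast_sum, ← hn]
      push_cast
      ring
    exact_mod_cast this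
  have hshc := hsh γ
  rw [hc'] at hshc
  rw [hF]
  simp only
  rw [hc']
  have h14 : ∀ x, (((mh μ + Ex v γ) x : ℕ) : ℂ) =
      ((μ x + Ex v u x : ℕ) : ℂ) + ((Sh v c x : ℤ) : ℂ) := by
    intro x
    have := hshc x
    rw [Finsupp.add_apply (mh μ) (Ex v u), mh_apply] at this
    exact_mod_cast this
  simp only [h14]
  have h15 : ∏ x, (((mh μ + Ex v γ) x).descFactorial (Sh v c x).toNat : ℂ) =
      ∏ i, (((μ i + ∑ j, u j * v j i : ℕ) + Sh v c i).toNat.descFactorial
            (Sh v c i).toNat : ℂ) := by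
    refine Finset.prod_congr rfl fun i _ => ?_
    have h16 := hshc i
    rw [Finsupp.add_apply (mh μ) (Ex v u), mh_apply, Ex_apply v u] at h16
    have h17 : (mh μ + Ex v γ) i = (((μ i + ∑ j, u j * v j i : ℕ) : ℤ) + Sh v c i).toNat := by
      omega
    rw [h17]
  have h18 : (∏ j, ((u j + M).factorial : ℂ)) = (∏ j, ((γ j).factorial : ℂ)) *
      ∏ j, eval (fun m => (u m : ℂ)) (ff M j (c j) * fq M j (c j)) := by
    rw [← Finset.prod_mul_distrib]
    exact (Finset.prod_congr rfl fun j _ => eval_fc u M j (c j) (hM c hc j) (hpos j)).symm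
  have h19 : ((((n+1).factorial : ℕ)) : ℂ) = (∏ j, ((γ j).factorial : ℂ)) *
      (Nat.multinomial Finset.univ γ : ℂ) := by
    have := Nat.multinomial_spec Finset.univ γ
    rw [hγS] at this
    rw [← this]
    push_cast
    ring
  have h20 : ∏ j, a j ^ γ j = (∏ j, a j ^ c j) * ∏ j, a j ^ u j := by
    rw [← Finset.prod_mul_distrib]
    refine Finset.prod_congr rfl fun j _ => ?_
    rw [← zpow_natCast, h10 j, add_comm, zpow_add₀ (ha j), zpow_natCast]
  rw [h15, h18, cf, h20]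
  rw [h12] at h19
  simp only [Finset.mul_sum]
  rw [Finset.sum_mul]
  refine Finset.sum_congr rfl fun m _ => ?_
  linear_combination (-(∏ j, eval (fun m => (u m : ℂ)) (ff M j (c j) * fq M j (c j))) *
    (∏ j, a j ^ c j) * (∏ j, a j ^ u j) * ss μ n m *
    eval (fun x => ((μ x + Ex v u x : ℕ) : ℂ) + ((Sh v c x : ℤ) : ℂ)) (Q (P m) (Sh v c)) *
    ∏ i, (((μ i + ∑ j, u j * v j i : ℕ) + Sh v c i).toNat.descFactorial
            (Sh v c i).toNat : ℂ)) * h19

end Pool.Agent.W423.MV
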