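import Pool.Agent.W423.MV.A

set_option autoImplicit false

/-! From the functional equation to the algebraic relation, continued. -/

namespace Pool.Agent.W423.MV

open MvPolynomial Pool.Agent.H628R4.TZ Pool.Agent.W425.SM
open Pool.Agent.H628R4.TP (weylS)
open Pool.Agent.W525.SM

variable {r N : ℕ}

/-- the restriction to the line `s ↦ (s, m_1 + s, …, m_N + s)` -/
noncomputable def evm (m : Fin N → ℕ) : MvPolynomial (Fin (N+1)) ℂ →ₐ[ℂ] Polynomial ℂ :=
  aeval (Fin.cons Polynomial.X (fun i => Polynomial.C (m i : ℂ) + Polynomial.X))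

/-- the point of the line -/
def pc (m : Fin N → ℕ) (s : ℂ) : Fin (N+1) → ℂ := Fin.cons s (fun i => (m i : ℂ) + s)

lemma eval_evm (m : Fin N → ℕ) (s : ℂ) (b : MvPolynomial (Fin (N+1)) ℂ) :
    (evm m b).eval s = eval (pc m s) b := by
  induction b using MvPolynomial.induction_on with
  | C a => simp [evm]
  | add p q hp hq => rw [map_add, Polynomial.eval_add, hp, hq, map_add]
  | mul_X p i hp =>
    rw [map_mul, Polynomial.eval_mul, hp, map_mul]
    congr 1
    rw [evm, aeval_X, eval_X]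
    refine Fin.cases ?_ (fun j => ?_) i
    · simp [pc]
    · simp [pc]

lemma pt_cast (m : Fin N → ℕ) (n : ℕ) : (fun j => ((pt m n j : ℕ) : ℂ)) = pc m (n : ℂ) := by
  funext j
  refine Fin.cases ?_ (fun j => ?_) j
  · simp [pc, pt]
  · simp [pc, pt]

/-- the weights `m + 1` -/
noncomputable def mw (m : Fin N → ℕ) : Fin N → ℝ := fun i => (m i : ℝ) + 1

lemma eval_elw (m : Fin N → ℕ) (v : Fin r → Fin N → ℕ) (i : Fin N) (s : Fin r → ℕ) :
    eval (fun j => (s j : ℂ)) (elw (mw m) v i) = (m i : ℂ) + 1 + ((∑ j, v j i * s j : ℕ) : ℂ) := by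
  unfold elw Lf mw
  simp

/-- the polynomial `(ℓ_i + 1) ⋯ (ℓ_i + k)` divided by `ℓ_i + 1` -/
noncomputable def ddw (m : Fin N → ℕ) (v : Fin r → Fin N → ℕ) (i : Fin N) (k : ℕ) :
    MvPolynomial (Fin r) ℂ :=
  ∏ t ∈ Finset.range (k-1), (elw (mw m) v i + C ((t:ℂ) + 1))

lemma eval_ddw (m : Fin N → ℕ) (v : Fin r → Fin N → ℕ) (i : Fin N) (k : ℕ) (hk : 1 ≤ k)
    (s : Fin r → ℕ) :
    eval (fun j => (s j : ℂ)) (elw (mw m) v i) * eval (fun j => (s j : ℂ)) (ddw m v i k) =
      (((m i + ∑ j, v j i * s j) + k).descFactorial k : ℂ) := by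
  obtain ⟨k, rfl⟩ : ∃ k', k = k' + 1 := ⟨k - 1, by omega⟩
  rw [Nat.add_descFactorial_eq_ascFactorial, Nat.ascFactorial_eq_prod_range,
    Finset.prod_range_succ']
  unfold ddw
  rw [map_prod, Nat.add_sub_cancel]
  push_cast
  rw [mul_comm]
  congr 1
  · refine Finset.prod_congr rfl fun t _ => ?_
    rw [map_add, eval_C, eval_elw]
    push_cast
    ring
  · rw [eval_elw]; push_cast; ring

/-- the relation before the division by `X + 1` -/
theorem pre_relW {v : Fin r → Fin N → ℕ} (hv : Ind v) (a : Fin r → ℂ) (ha : ∀ j, a j ≠ 0)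
    (b : MvPolynomial (Fin (N+1)) ℂ) (P : (Fin (N+1) →₀ ℕ) →₀ weyl N)
    (hP : ∀ (m : Fin N → ℕ) (n : ℕ),
      C (eval (fun j => ((pt m n j : ℕ) : ℂ)) b) * (monomial (mh m) 1 * sparse v a ^ n) =
        applyAt P (pt m n) (monomial (mh m) 1 * sparse v a ^ (n + 1))) :
    ∃ (M : ℕ) (Cs : Finset (Fin r → ℤ)), ∀ m : Fin N → ℕ,
      ∃ (q : (Fin r → ℤ) → MvPolynomial (Fin r) ℂ), (∀ c ∈ Cs, ∑ j, c j = 1) ∧
    Polynomial.aeval (∑ j, X j : MvPolynomial (Fin r) ℂ) (evm m b) * ∏ j, dm M j =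
      (∑ j, X j + 1) *
      ∑ c ∈ Cs, (∏ i ∈ Bc v c, elw (mw m) v i) *
        ((∏ j, if c j < 0 then X j * dm M j else 1) * q c) := by
  classical
  obtain ⟨M, S, T, q, hS, hq⟩ := num_relW hv a ha b P hP
  refine ⟨M, S, fun m => ?_⟩
  replace hq := hq m
  set σ : MvPolynomial (Fin r) ℂ := ∑ j, X j with hσ
  set gx : (Fin r → ℤ) → (Fin N) → MvPolynomial (Fin r) ℂ := fun c i =>
    elw (mw m) v i - 1 + C ((Sh v c i : ℤ) : ℂ) with hgx
  set sp : (Fin (N+1) →₀ ℕ) → MvPolynomial (Fin r) ℂ := fun β =>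
    σ ^ β 0 * ∏ i : Fin N, (C (m i : ℂ) + σ) ^ β i.succ with hsp
  set qt : (Fin r → ℤ) → MvPolynomial (Fin r) ℂ := fun c =>
    C (∏ j, a j ^ c j) * (∏ j, fq M j (c j)) *
      (∏ i ∈ Bc v c, ddw m v i (Sh v c i).toNat) *
      ∑ β ∈ T, sp β * aeval (gx c) (q β c) with hqt
  refine ⟨qt, hS, ?_⟩
  refine funext_set (fun _ => Set.range (Nat.cast : ℕ → ℂ))
    (fun _ => Set.infinite_range_of_injective Nat.cast_injective) fun x hx => ?_
  choose u hu using fun j => hx j (Set.mem_univ j)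
  obtain rfl : x = fun j => (u j : ℂ) := funext fun j => (hu j).symm
  have hσe : eval (fun j => (u j : ℂ)) σ = ((∑ m, u m : ℕ) : ℂ) := by simp [hσ]
  have hspe : ∀ β, eval (fun j => (u j : ℂ)) (sp β) = ss m (∑ j, u j) β := by
    intro β
    rw [hsp]
    simp only [map_mul, map_pow, map_prod, map_add, eval_C, hσe]
    rw [ss, Fin.prod_univ_succ]
    simp [pt]
  have hb : (evm m b).eval (((∑ m, u m : ℕ) : ℂ)) =
      eval (fun j => ((pt m (∑ j, u j) j : ℕ) : ℂ)) b := by
    rw [eval_evm, pt_cast]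
  rw [map_mul, eval_paeval, hσe, map_prod, hb, hq u, map_mul, map_add, hσe, map_one, map_sum]
  congr 1
  refine Finset.sum_congr rfl fun c hc => ?_
  have hA : eval (fun j => (u j : ℂ)) (∏ j, if c j < 0 then
        (X j * dm M j : MvPolynomial (Fin r) ℂ) else 1) *
        eval (fun j => (u j : ℂ)) (∏ j, fq M j (c j)) =
        ∏ j, eval (fun m => (u m : ℂ)) (ff M j (c j) * fq M j (c j)) := by
    simp only [map_prod, ← Finset.prod_mul_distrib, map_mul]
    rfl
  have hB : eval (fun j => (u j : ℂ)) (∏ i ∈ Bc v c, elw (mw m) v i) *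
        eval (fun j => (u j : ℂ)) (∏ i ∈ Bc v c, ddw m v i (Sh v c i).toNat) =
        ∏ i, (((m i + ∑ j, u j * v j i : ℕ) + Sh v c i).toNat.descFactorial
            (Sh v c i).toNat : ℂ) := by
    rw [← Finset.prod_subset (Finset.subset_univ (Bc v c))]
    · rw [map_prod, map_prod, ← Finset.prod_mul_distrib]
      refine Finset.prod_congr rfl fun i hi => ?_
      have h10 : 0 < Sh v c i := by simpa [Bc, Sh] using hi
      rw [eval_ddw _ _ _ _ (by omega), usum]
      have h11 : (((m i + ∑ j, u j * v j i : ℕ) : ℤ) + Sh v c i).toNat =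
          (m i + ∑ j, u j * v j i) + (Sh v c i).toNat := by omega
      rw [h11]
    · intro i _ hi
      have h10 : ¬ 0 < Sh v c i := by simpa [Bc, Sh] using hi
      have : (Sh v c i).toNat = 0 := by omega
      rw [this]; simp
  have hC : eval (fun j => (u j : ℂ)) (∑ β ∈ T, sp β * aeval (gx c) (q β c)) =
        ∑ β ∈ T, ss m (∑ m, u m) β *
          eval (fun x => ((m x + Ex v u x : ℕ) : ℂ) + ((Sh v c x : ℤ) : ℂ)) (q β c) := by
    rw [map_sum]
    refine Finset.sum_congr rfl fun β _ => ?_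
    rw [map_mul, hspe, eval_maeval]
    congr 3
    funext x
    rw [hgx]
    simp only [map_add, map_sub, map_one, eval_C]
    rw [eval_elw, usum, Ex_apply]
    push_cast
    ring
  rw [← hA, ← hB, ← hC, hqt]
  simp only [map_mul, eval_C]
  ring

/-- The algebraic relation of `b(s) / (s_0 + 1)` on the lines. -/
theorem relW_of_eq {v : Fin r → Fin N → ℕ} (hr : 2 ≤ r) (hv : Ind v) (a : Fin r → ℂ)
    (ha : ∀ j, a j ≠ 0)
    (b : MvPolynomial (Fin (N+1)) ℂ) (P : (Fin (N+1) →₀ ℕ) →₀ weyl N)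
    (hP : ∀ (m : Fin N → ℕ) (n : ℕ),
      C (eval (fun j => ((pt m n j : ℕ) : ℂ)) b) * (monomial (mh m) 1 * sparse v a ^ n) =
        applyAt P (pt m n) (monomial (mh m) 1 * sparse v a ^ (n + 1))) :
    ∃ (M : ℕ) (Cs : Finset (Fin r → ℤ)), ∀ m : Fin N → ℕ,
      ∃ p : Polynomial ℂ, evm m b = (Polynomial.X + 1) * p ∧ RelW (mw m) v M Cs p := by
  classical
  obtain ⟨M, Cs, hrelm⟩ := pre_relW hv a ha b P hP
  refine ⟨M, Cs, fun m => ?_⟩
  obtain ⟨q, hc, hrel⟩ := hrelm m
  set bb := evm m b with hbb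
  set σ : MvPolynomial (Fin r) ℂ := ∑ j, X j with hσ
  set G : MvPolynomial (Fin r) ℂ := ∑ c ∈ Cs, (∏ i ∈ Bc v c, elw (mw m) v i) *
    ((∏ j, if c j < 0 then X j * dm M j else 1) * q c) with hG
  -- the point
  set j0 : Fin r := ⟨0, by omega⟩ with hj0
  set j1 : Fin r := ⟨1, by omega⟩ with hj1
  have h01 : j0 ≠ j1 := by
    rw [hj0, hj1]
    intro h
    have := congrArg Fin.val h
    simp at this
  set x : Fin r → ℂ := fun j => if j = j0 then 1/2 else if j = j1 then -3/2 else 0 with hx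
  have hσx : eval x σ = -1 := by
    rw [hσ, map_sum]
    simp only [eval_X]
    have : ∀ j, x j = (if j = j0 then (1/2 : ℂ) else 0) + (if j = j1 then (-3/2 : ℂ) else 0) := by
      intro j
      rw [hx]
      by_cases h1 : j = j0
      · subst h1; simp [h01]
      · simp [h1]
    simp only [this]
    rw [Finset.sum_add_distrib, Finset.sum_ite_eq', Finset.sum_ite_eq']
    simp
    norm_num
  have hdx : eval x (∏ j, dm M j) ≠ 0 := by
    rw [map_prod]
    refine Finset.prod_ne_zero_iff.2 fun j _ => ?_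
    unfold dm
    rw [map_prod]
    refine Finset.prod_ne_zero_iff.2 fun m _ => ?_
    rw [map_add, eval_X, eval_C, hx]
    simp only
    split_ifs
    · intro h
      have h2 : ((3 + 2 * m : ℕ) : ℂ) = 0 := by
        push_cast at h ⊢
        linear_combination 2 * h
      have : 3 + 2 * m = 0 := by exact_mod_cast h2
      omega
    · intro h
      have h2 : ((2 * m : ℕ) : ℂ) = ((1 : ℕ) : ℂ) := by
        push_cast at h ⊢
        linear_combination 2 * h
      have : 2 * m = 1 := by exact_mod_cast h2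
      omega
    · rw [zero_add]
      exact_mod_cast Nat.succ_ne_zero m
  have hroot : bb.eval (-1) = 0 := by
    have h1 := congrArg (eval x) hrel
    rw [map_mul, eval_paeval, hσx, map_mul, map_add, hσx, map_one, neg_add_cancel, zero_mul] at h1
    exact (mul_eq_zero.1 h1).resolve_right hdx
  obtain ⟨p, hp⟩ := Polynomial.dvd_iff_isRoot.2 (show bb.IsRoot (-1) from hroot)
  have hp' : bb = (Polynomial.X + 1) * p := by
    rw [hp]
    congr 1
    simp
  refine ⟨p, hp', q, hc, ?_⟩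
  have h3 : (σ + 1) ≠ 0 := by
    intro h
    have h4 := congrArg (eval (0 : Fin r → ℂ)) h
    rw [map_add, map_one, map_zero, hσ, map_sum] at h4
    simp at h4
  refine mul_left_cancel₀ h3 ?_
  rw [← hrel, hp', map_mul, map_add, Polynomial.aeval_X, map_one]
  ring

/-- the exponents of `x_1 ⋯ x_N g` -/
def vp (v : Fin r → Fin N → ℕ) (j : Fin r) (i : Fin N) : ℕ := v j i + 1

lemma vp_ind {v : Fin r → Fin N → ℕ} (hv : Ind v) : Ind (vp v) := by
  unfold Ind at hv ⊢
  rw [affineIndependent_iff] at hv ⊢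
  intro s w h0 h1
  refine hv s w h0 ?_
  funext i
  have h2 := congrFun h1 i
  rw [Finset.sum_apply] at h2 ⊢
  simp only [Pi.smul_apply, smul_eq_mul, vp, Pi.zero_apply] at h2 ⊢
  push_cast at h2
  simp only [mul_add, mul_one, Finset.sum_add_distrib, h0, add_zero] at h2
  exact h2

lemma sparse_vp (v : Fin r → Fin N → ℕ) (a : Fin r → ℂ) :
    sparse (vp v) a = (∏ i, X i) * sparse v a := by
  unfold sparse vp
  rw [Finset.mul_sum]
  refine Finset.sum_congr rfl fun j _ => ?_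
  simp only [pow_succ, Finset.prod_mul_distrib]
  ring

lemma mono_mh (m : Fin N → ℕ) : (monomial (mh m) 1 : MvPolynomial (Fin N) ℂ) = ∏ i, X i ^ m i := by
  rw [monomial_eq, C_1, one_mul, Finsupp.prod_fintype _ _ (by simp)]
  rfl

/-- the functional equation on the lines -/
lemma eq_of_inBS (v : Fin r → Fin N → ℕ) (a : Fin r → ℂ) (b : MvPolynomial (Fin (N+1)) ℂ)
    (hb : InBSIdeal (tuple v a) b) :
    ∃ P : (Fin (N+1) →₀ ℕ) →₀ weyl N, ∀ (m : Fin N → ℕ) (n : ℕ),
      C (eval (fun j => ((pt m n j : ℕ) : ℂ)) b) * (monomial (mh m) 1 * sparse (vp v) a ^ n) =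
        applyAt P (pt m n) (monomial (mh m) 1 * sparse (vp v) a ^ (n + 1)) := by
  obtain ⟨P, hP⟩ := hb
  refine ⟨P, fun m n => ?_⟩
  have h := hP (pt m n)
  have h1 : ∏ j, tuple v a j ^ pt m n j = monomial (mh m) 1 * sparse (vp v) a ^ n := by
    rw [Fin.prod_univ_succ, sparse_vp, mono_mh, mul_pow, ← Finset.prod_pow]
    simp only [tuple, pt, Fin.cons_zero, Fin.cons_succ, pow_add, Finset.prod_mul_distrib]
    ring
  have h2 : ∏ j, tuple v a j ^ (pt m n j + 1) = monomial (mh m) 1 * sparse (vp v) a ^ (n + 1) := by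
    rw [Fin.prod_univ_succ, sparse_vp, mono_mh, mul_pow, ← Finset.prod_pow]
    simp only [tuple, pt, Fin.cons_zero, Fin.cons_succ, pow_add, Finset.prod_mul_distrib]
    ring
  rw [← h1, ← h2]
  exact h

end Pool.Agent.W423.MV
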