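import Pool.Agent.W423.MV.Defs

set_option autoImplicit false

/-! The limit of the smoothed integrals. -/

namespace Pool.Agent.W423.MV

open MvPolynomial Pool.Agent.H628R4.TZ Pool.Agent.H628R4.TP MeasureTheory Filter Topology
open Pool.Agent.W425.SM
open Pool.Agent.W349.SM hiding dl_pos dl_le dl_tendsto

variable {r N : ℕ}

variable {J : Finset (Fin r)} {d : ℕ}

open Classical in
noncomputable def HG (v : Fin r → Fin N → ℕ)
    (Θ : ((J → ℝ) × (Fin d → ℝ)) ≃ₗ[ℝ] (Fin (N+1) → ℝ)) (μ : Fin N → ℝ) (K α s : ℝ) (m : ℕ)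
    (p : (J → ℝ) × (Fin d → ℝ)) : ℂ :=
  (if ∀ i, 0 < Xm Θ K α m p i then wt (lw μ s) (Xm Θ K α m p) else 0) *
    (((∏ j : J, rho (p.1 j)) *
      ∏ j ∈ Jᶜ, stp ((dl m) ^ 2) (ymap v (Θ ((dl m) ^ 2 • p.1, p.2)) j) : ℝ) : ℂ)

lemma int_eqW (v : Fin r → Fin N → ℕ)
    (Θ : ((J → ℝ) × (Fin d → ℝ)) ≃ₗ[ℝ] (Fin (N+1) → ℝ)) (θ : ℝ) (hA : Adapt v J d Θ θ)
    (μ : Fin N → ℝ) (K α s : ℝ) (m : ℕ) :
    ∫ x, integW v μ K α s J m x ∂(Measure.pi (ms (∅ : Finset (Fin (N+1))))) =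
      (θ : ℂ) * ∫ p, HG v Θ μ K α s m p := by
  classical
  have h1 : Measure.pi (ms (∅ : Finset (Fin (N+1)))) =
      (volume : Measure (Fin (N+1) → ℝ)).restrict (Set.pi Set.univ fun _ => Set.Ioi 0) := by
    rw [volume_pi, Measure.restrict_pi_pi]
    congr 1
  rw [h1, ← integral_indicator (MeasurableSet.univ_pi fun _ => measurableSet_Ioi), hA.int]
  congr 1
  haveI : (volume : Measure ((J → ℝ) × (Fin d → ℝ))).IsAddHaarMeasure :=
    Measure.prod.instIsAddHaarMeasure _ _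
  rw [← integral_add_right_eq_self _ (Θ.symm (bv K α m))]
  have hε : 0 < (dl m) ^ 2 := pow_pos (dl_pos m) 2
  rw [scale_fst ((dl m)^2) hε, ← integral_const_mul]
  refine integral_congr_ae (Eventually.of_forall fun p => ?_)
  simp only
  rw [map_add, LinearEquiv.apply_symm_apply]
  change _ * Set.indicator _ _ (Xm Θ K α m p) = _
  unfold HG
  rw [Set.indicator_apply]
  have hmem : (Xm Θ K α m p ∈ (Set.pi Set.univ fun _ => Set.Ioi (0:ℝ))) ↔
      ∀ i, 0 < Xm Θ K α m p i := by simp [Set.mem_pi]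
  simp only [hmem]
  split_ifs with hpos
  · unfold integW
    have hy : ∀ j, ymap v (Xm Θ K α m p) j + yz v K α m j =
        ymap v (Θ ((dl m) ^ 2 • p.1, p.2)) j := by
      intro j
      unfold Xm
      rw [ymap_add, add_assoc, ymap_bv, add_zero]
    simp only [hy]
    have hprod : ∏ j, (((if j ∈ J then -ph (dl m ^ 2) 1 (ymap v (Θ ((dl m) ^ 2 • p.1, p.2)) j)
        else ph (dl m ^ 2) 0 (ymap v (Θ ((dl m) ^ 2 • p.1, p.2)) j) : ℝ)) : ℂ) =
        (((∏ j : J, -ph (dl m ^ 2) 1 ((dl m) ^ 2 * p.1 j)) *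
          ∏ j ∈ Jᶜ, stp ((dl m) ^ 2) (ymap v (Θ ((dl m) ^ 2 • p.1, p.2)) j) : ℝ) : ℂ) := by
      rw [← Complex.ofReal_prod, ← Finset.prod_mul_prod_compl J]
      congr 2
      · rw [← Finset.prod_coe_sort J]
        refine Finset.prod_congr rfl fun j _ => ?_
        rw [if_pos j.2, hA.y]
        rfl
      · refine Finset.prod_congr rfl fun j hj => ?_
        rw [if_neg (Finset.mem_compl.1 hj), ph_zero]
    rw [hprod]
    have h2 : ∏ j : J, rho (p.1 j) = ((dl m) ^ 2) ^ Fintype.card J *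
        ∏ j : J, -ph (dl m ^ 2) 1 ((dl m) ^ 2 * p.1 j) := by
      rw [← Finset.card_univ, ← Finset.prod_const, ← Finset.prod_mul_distrib]
      exact Finset.prod_congr rfl fun j _ => (ph_one_scale _ hε _).symm
    rw [h2]
    push_cast
    ring
  · simp

lemma exists_lb (μ : Fin N → ℝ) (s : ℝ) (hs : 0 < s) (hμ : ∀ i, 0 < μ i) :
    ∃ c0 : ℝ, 0 < c0 ∧ ∀ i, c0 ≤ lw μ s i := by
  have hp : ∀ i, 0 < lw μ s i := by
    intro i
    refine Fin.cases ?_ (fun j => ?_) i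
    · exact hs
    · exact hμ j
  exact ⟨Finset.univ.inf' Finset.univ_nonempty (lw μ s),
    (Finset.lt_inf'_iff _).2 fun i _ => hp i, fun i => Finset.inf'_le _ (Finset.mem_univ i)⟩

lemma wt_bdW (μ : Fin N → ℝ) (s c0 : ℝ) (h4 : 0 < c0) (h2 : ∀ i, c0 ≤ lw μ s i)
    (x : Fin (N+1) → ℝ) (hx : ∀ i, 0 < x i) :
    ‖wt (lw μ s) x‖ ≤ Real.exp (-c0 * ‖x‖) := by
  unfold wt
  rw [norm_prod]
  simp only [Complex.norm_real, Real.norm_eq_abs, Real.abs_exp]
  rw [← Real.exp_sum]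
  refine Real.exp_le_exp.2 ?_
  have h1 : ‖x‖ ≤ ∑ i, x i := by
    rw [pi_norm_le_iff_of_nonneg (Finset.sum_nonneg fun i _ => (hx i).le)]
    intro i
    rw [Real.norm_of_nonneg (hx i).le]
    exact Finset.single_le_sum (fun j _ => (hx j).le) (Finset.mem_univ i)
  have h3 : c0 * ∑ i, x i ≤ ∑ i, lw μ s i * x i := by
    rw [Finset.mul_sum]
    exact Finset.sum_le_sum fun i _ => mul_le_mul_of_nonneg_right (h2 i) (hx i).le
  have h5 : ∑ i, -lw μ s i * x i = -∑ i, lw μ s i * x i := by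
    rw [← Finset.sum_neg_distrib]
    exact Finset.sum_congr rfl fun i _ => by ring
  rw [h5]
  nlinarith [mul_le_mul_of_nonneg_left h1 h4.le]

lemma wt_cont' (μ : Fin N → ℝ) (s : ℝ) : Continuous (wt (lw μ s)) := by
  unfold wt
  fun_prop

lemma HG_meas (v : Fin r → Fin N → ℕ)
    (Θ : ((J → ℝ) × (Fin d → ℝ)) ≃ₗ[ℝ] (Fin (N+1) → ℝ)) (μ : Fin N → ℝ) (K α s : ℝ) (m : ℕ) :
    AEStronglyMeasurable (HG v Θ μ K α s m) volume := by
  classical
  have h : Continuous Θ := Θ.toLinearMap.continuous_of_finiteDimensional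
  refine Measurable.aestronglyMeasurable ?_
  unfold HG
  refine Measurable.mul ?_ ?_
  · refine Measurable.ite ?_ ((wt_cont' μ s).comp (Xm_cont Θ K α m)).measurable measurable_const
    have : {p : (J → ℝ) × (Fin d → ℝ) | ∀ i, 0 < Xm Θ K α m p i} =
        ⋂ i, {p | 0 < Xm Θ K α m p i} := by ext p; simp
    rw [this]
    exact MeasurableSet.iInter fun i => measurableSet_lt measurable_const
      ((continuous_apply i).comp (Xm_cont Θ K α m)).measurable
  · refine (Complex.continuous_ofReal.comp (Continuous.mul ?_ ?_)).measurable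
    · exact continuous_finsetProd _ fun j _ => rho_cont.comp
        ((continuous_apply j).comp continuous_fst)
    · exact continuous_finsetProd _ fun j _ => (stp_contDiff _).continuous.comp
        ((ymap_cont v j).comp (h.comp (by fun_prop)))

lemma HG_bd (v : Fin r → Fin N → ℕ)
    (Θ : ((J → ℝ) × (Fin d → ℝ)) ≃ₗ[ℝ] (Fin (N+1) → ℝ)) (μ : Fin N → ℝ) (hμ : ∀ i, 0 < μ i) (K α s : ℝ) (hs : 0 < s) :
    ∃ bound : (J → ℝ) × (Fin d → ℝ) → ℝ, Integrable bound ∧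
      ∀ m p, ‖HG v Θ μ K α s m p‖ ≤ bound p := by
  classical
  obtain ⟨c0, hc0, hc0'⟩ := exists_lb μ s hs hμ
  obtain ⟨C, c', hC, hc', hb⟩ := exp_bd Θ c0 (|K| + |α|) hc0
  refine ⟨fun p => (∏ j : J, |rho (p.1 j)|) * (C * ∏ i, Real.exp (-c' * |p.2 i|)), ?_,
    fun m p => ?_⟩
  · rw [Measure.volume_eq_prod]
    refine Integrable.mul_prod (f := fun z : J → ℝ => ∏ j : J, |rho (z j)|)
      (g := fun a : Fin d → ℝ => C * ∏ i, Real.exp (-c' * |a i|)) ?_ ?_
    · exact Integrable.fintype_prod (f := fun (_ : J) t => |rho t|) fun j => rho_int.abs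
    · exact (Integrable.fintype_prod (f := fun (_ : Fin d) t => Real.exp (-c' * |t|))
        fun i => exp_abs_int c' hc').const_mul C
  · unfold HG
    rw [norm_mul, Complex.norm_real, Real.norm_eq_abs, abs_mul, Finset.abs_prod, Finset.abs_prod]
    have h1 : ∏ j ∈ Jᶜ, |stp ((dl m) ^ 2) (ymap v (Θ ((dl m) ^ 2 • p.1, p.2)) j)| ≤ 1 :=
      Finset.prod_le_one (fun _ _ => abs_nonneg _) fun _ _ => stp_bd _ _
    have h2 : ‖(if ∀ i, 0 < Xm Θ K α m p i then wt (lw μ s) (Xm Θ K α m p) else 0 : ℂ)‖ ≤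
        C * ∏ i, Real.exp (-c' * |p.2 i|) := by
      split_ifs with hpos
      · refine (wt_bdW μ s c0 hc0 hc0' _ hpos).trans ?_
        exact hb _ _ _ (bv_norm K α m)
      · rw [norm_zero]
        exact mul_nonneg hC (Finset.prod_nonneg fun _ _ => (Real.exp_pos _).le)
    have h3 : 0 ≤ ∏ j : J, |rho (p.1 j)| := Finset.prod_nonneg fun _ _ => abs_nonneg _
    have h4 : (∏ j : J, |rho (p.1 j)|) *
        ∏ j ∈ Jᶜ, |stp ((dl m) ^ 2) (ymap v (Θ ((dl m) ^ 2 • p.1, p.2)) j)| ≤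
        ∏ j : J, |rho (p.1 j)| := mul_le_of_le_one_right h3 h1
    calc _ ≤ (C * ∏ i, Real.exp (-c' * |p.2 i|)) * ∏ j : J, |rho (p.1 j)| :=
          mul_le_mul h2 h4 (mul_nonneg h3 (Finset.prod_nonneg fun _ _ => abs_nonneg _))
            ((norm_nonneg _).trans h2)
      _ = _ := mul_comm _ _

lemma HG_lim (v : Fin r → Fin N → ℕ)
    (Θ : ((J → ℝ) × (Fin d → ℝ)) ≃ₗ[ℝ] (Fin (N+1) → ℝ)) (μ : Fin N → ℝ) (K α s : ℝ) (hK : 0 < K) (hα : α ≠ 0)
    (p : (J → ℝ) × (Fin d → ℝ)) (hp : ∀ j, j ∉ J → ymap v (Θ (0, p.2)) j ≠ 0) :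
    Tendsto (fun m => HG v Θ μ K α s m p) atTop
      (𝓝 ((∏ j : J, (rho (p.1 j) : ℂ)) * limGW v μ α s J (Θ (0, p.2)))) := by
  classical
  set x := Θ (0, p.2) with hx
  set u := Θ (p.1, 0) with hu
  have hX : ∀ m, Xm Θ K α m p = x + (dl m) ^ 2 • u + bv K α m := by
    intro m
    unfold Xm
    rw [Θ_split]
  have hX0 : ∀ m, Xm Θ K α m p 0 = x 0 + dl m * (dl m * u 0 + -K) := by
    intro m
    rw [hX]
    simp only [Pi.add_apply, Pi.smul_apply, smul_eq_mul, bv, Fin.cons_zero]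
    ring
  have hXs : ∀ m (i : Fin N), Xm Θ K α m p i.succ =
      x i.succ + dl m * (dl m * u i.succ + α) := by
    intro m i
    rw [hX]
    simp only [Pi.add_apply, Pi.smul_apply, smul_eq_mul, bv, Fin.cons_succ]
    ring
  have hY : ∀ m j, ymap v (Θ ((dl m) ^ 2 • p.1, p.2)) j = ymap v x j + (dl m) ^ 2 * ymap v u j := by
    intro m j
    rw [Θ_split, ymap_add, ymap_smul]
  have hz : ∀ (_ : ∃ i, ∀ᶠ m in atTop, Xm Θ K α m p i < 0),
      Tendsto (fun m => HG v Θ μ K α s m p) atTop (𝓝 0) := by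
    rintro ⟨i, hi⟩
    refine tendsto_const_nhds.congr' ?_
    filter_upwards [hi] with m hm
    unfold HG
    rw [if_neg (fun h => absurd (h i) (not_lt.2 hm.le)), zero_mul]
  unfold limGW
  by_cases h0 : 0 < x 0
  swap
  · rw [if_neg (fun h => h0 h.1), mul_zero]
    refine hz ⟨0, ?_⟩
    simp only [hX0]
    refine ev_neg _ _ _ ?_
    rcases lt_or_eq_of_le (not_lt.1 h0) with h | h
    · exact Or.inl h
    · exact Or.inr ⟨h, by linarith⟩
  by_cases h1 : ∀ i : Fin N, 0 < x i.succ ∨ (0 < α ∧ x i.succ = 0)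
  swap
  · rw [if_neg (fun h => h1 h.2.1), mul_zero]
    push Not at h1
    obtain ⟨i, hi1, hi2⟩ := h1
    refine hz ⟨i.succ, ?_⟩
    simp only [hXs]
    refine ev_neg _ _ _ ?_
    rcases lt_or_eq_of_le hi1 with h | h
    · exact Or.inl h
    · refine Or.inr ⟨h, ?_⟩
      rcases lt_or_gt_of_ne hα with h' | h'
      · exact h'
      · exact absurd h (hi2 h')
  have hεt : Tendsto (fun m => (dl m) ^ 2) atTop (𝓝 0) := by
    have := dl_tendsto.pow 2
    simpa using this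
  by_cases h2 : ∀ j, j ∉ J → 0 < ymap v x j
  swap
  · rw [if_neg (fun h => h2 h.2.2), mul_zero]
    push Not at h2
    obtain ⟨j, hj, hj2⟩ := h2
    have hj3 : ymap v x j < 0 := lt_of_le_of_ne hj2 (hp j hj)
    refine tendsto_const_nhds.congr' ?_
    have h4 : Tendsto (fun m => ymap v x j + (dl m) ^ 2 * ymap v u j) atTop
        (𝓝 (ymap v x j + 0 * ymap v u j)) := tendsto_const_nhds.add (hεt.mul_const _)
    rw [zero_mul, add_zero] at h4
    filter_upwards [h4.eventually (gt_mem_nhds hj3)] with m hm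
    unfold HG
    have h5 : ∏ j ∈ Jᶜ, stp ((dl m) ^ 2) (ymap v (Θ ((dl m) ^ 2 • p.1, p.2)) j) = 0 := by
      refine Finset.prod_eq_zero (Finset.mem_compl.2 hj) ?_
      rw [hY]
      exact stp_neg _ (pow_pos (dl_pos m) 2) _ hm.le
    rw [h5]
    simp
  rw [if_pos ⟨h0, h1, h2⟩]
  -- eventually all conditions hold
  have e1 : ∀ᶠ m in atTop, ∀ i, 0 < Xm Θ K α m p i := by
    rw [eventually_all]
    intro i
    refine Fin.cases ?_ (fun j => ?_) i
    · simp only [hX0]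
      exact ev_pos _ _ _ (Or.inl h0)
    · simp only [hXs]
      refine ev_pos _ _ _ ?_
      rcases h1 j with h | ⟨h, h'⟩
      · exact Or.inl h
      · exact Or.inr ⟨h', h⟩
  have e2 : ∀ᶠ m in atTop, ∀ j, j ∉ J →
      stp ((dl m) ^ 2) (ymap v (Θ ((dl m) ^ 2 • p.1, p.2)) j) = 1 := by
    rw [eventually_all]
    intro j
    by_cases hj : j ∈ J
    · exact Eventually.of_forall fun m h => absurd hj h
    have h4 : Tendsto (fun m => ymap v x j + (dl m) ^ 2 * ymap v u j - (dl m) ^ 2) atTop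
        (𝓝 (ymap v x j + 0 * ymap v u j - 0)) :=
      (tendsto_const_nhds.add (hεt.mul_const _)).sub hεt
    rw [zero_mul, add_zero, sub_zero] at h4
    filter_upwards [h4.eventually (lt_mem_nhds (h2 j hj))] with m hm _
    rw [hY]
    exact stp_big _ (pow_pos (dl_pos m) 2) _ (by linarith)
  have h6 : Tendsto (fun m => wt (lw μ s) (Xm Θ K α m p) * ∏ j : J, (rho (p.1 j) : ℂ)) atTop
      (𝓝 (wt (lw μ s) x * ∏ j : J, (rho (p.1 j) : ℂ))) := by
    refine Tendsto.mul_const _ ?_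
    refine ((wt_cont' μ s).tendsto x).comp ?_
    rw [tendsto_pi_nhds]
    intro i
    refine Fin.cases ?_ (fun j => ?_) i
    · simp only [hX0]
      have : Tendsto (fun m => x 0 + dl m * (dl m * u 0 + -K)) atTop
          (𝓝 (x 0 + 0 * (0 * u 0 + -K))) :=
        tendsto_const_nhds.add (dl_tendsto.mul ((dl_tendsto.mul_const _).add_const _))
      rwa [zero_mul, add_zero] at this
    · simp only [hXs]
      have : Tendsto (fun m => x j.succ + dl m * (dl m * u j.succ + α)) atTop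
          (𝓝 (x j.succ + 0 * (0 * u j.succ + α))) :=
        tendsto_const_nhds.add (dl_tendsto.mul ((dl_tendsto.mul_const _).add_const _))
      rwa [zero_mul, add_zero] at this
  rw [mul_comm]
  refine h6.congr' ?_
  filter_upwards [e1, e2] with m hm1 hm2
  unfold HG
  rw [if_pos hm1]
  have h7 : ∏ j ∈ Jᶜ, stp ((dl m) ^ 2) (ymap v (Θ ((dl m) ^ 2 • p.1, p.2)) j) = 1 :=
    Finset.prod_eq_one fun j hj => hm2 j (Finset.mem_compl.1 hj)
  rw [h7]
  push_cast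
  ring

lemma lim_intW (v : Fin r → Fin N → ℕ)
    (Θ : ((J → ℝ) × (Fin d → ℝ)) ≃ₗ[ℝ] (Fin (N+1) → ℝ)) (μ : Fin N → ℝ) (α s : ℝ) :
    ∫ p : (J → ℝ) × (Fin d → ℝ), (∏ j : J, (rho (p.1 j) : ℂ)) * limGW v μ α s J (Θ (0, p.2)) =
      ∫ a, limGW v μ α s J (Θ (0, a)) := by
  rw [Measure.volume_eq_prod]
  rw [integral_prod_mul (fun z : J → ℝ => ∏ j : J, (rho (z j) : ℂ))
    (fun a : Fin d → ℝ => limGW v μ α s J (Θ (0, a)))]
  have h1 : ∫ z : J → ℝ, ∏ j : J, (rho (z j) : ℂ) = 1 := by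
    rw [integral_fintype_prod_volume_eq_prod (fun (_ : J) t => (rho t : ℂ))]
    refine Finset.prod_eq_one fun j _ => ?_
    rw [integral_complex_ofReal, rho_integral]
    simp
  rw [h1, one_mul]

/-- Part C2. -/
theorem limW (v : Fin r → Fin N → ℕ) (hv : Ind v) (μ : Fin N → ℝ) (hμ : ∀ i, 0 < μ i)
    (K α s : ℝ) (hK : 0 < K) (hα : α ≠ 0) (hs : 0 < s) (J : Finset (Fin r)) (d : ℕ)
    (Θ : ((J → ℝ) × (Fin d → ℝ)) ≃ₗ[ℝ] (Fin (N+1) → ℝ)) (θ : ℝ) (hA : Adapt v J d Θ θ) :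
    Tendsto (fun m : ℕ => ∫ x, integW v μ K α s J m x ∂(Measure.pi (ms (∅ : Finset (Fin (N+1))))))
      atTop (𝓝 ((θ : ℂ) * ∫ a, limGW v μ α s J (Θ (0, a)))) := by
  simp only [int_eqW v Θ θ hA μ K α s]
  refine Tendsto.const_mul _ ?_
  obtain ⟨bound, hb1, hb2⟩ := HG_bd v Θ μ hμ K α s hs
  rw [← lim_intW v Θ μ α s]
  refine tendsto_integral_of_dominated_convergence bound (fun m => HG_meas v Θ μ K α s m) hb1
    (fun m => Eventually.of_forall fun p => hb2 m p) ?_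
  filter_upwards [ae_ne v hv Θ θ hA] with p hp
  exact HG_lim v Θ μ K α s hK hα p hp

end Pool.Agent.W423.MV
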