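import Pool.Agent.W423.MV.C2

set_option autoImplicit false

/-! The value of the limit. -/

namespace Pool.Agent.W423.MV

open MvPolynomial Pool.Agent.H628R4.TZ Pool.Agent.H628R4.TP Pool.Agent.W425.SM
open Pool.Agent.W655.SM
open MeasureTheory Set Filter Topology

variable {r N : ℕ}

/-- exponents -/
noncomputable def kpW (v : Fin r → Fin N → ℕ) (μ : Fin N → ℝ) (s : ℝ) (ρ : Fin N → ℕ) : ℝ :=
  (ordAlong v ρ : ℝ) * s + kw μ ρ

lemma kw_pos (R : SmoothFan N) (μ : Fin N → ℝ) (hμ : ∀ i, 0 < μ i)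
    (σ : Finset (Fin N → ℕ)) (hσ : σ ∈ R.cones) (ρ : Fin N → ℕ) (hρ : ρ ∈ σ) : 0 < kw μ ρ := by
  have h1 : 0 < ∑ l, ρ l := ray_sum_pos R σ hσ ρ hρ
  obtain ⟨l, _, hl⟩ := Finset.exists_ne_zero_of_sum_ne_zero h1.ne'
  refine Finset.sum_pos' (fun l _ => mul_nonneg (Nat.cast_nonneg _) (hμ l).le)
    ⟨l, Finset.mem_univ l, mul_pos (by exact_mod_cast Nat.pos_of_ne_zero hl) (hμ l)⟩

lemma kpW_pos (v : Fin r → Fin N → ℕ) (R : SmoothFan N) (μ : Fin N → ℝ) (hμ : ∀ i, 0 < μ i)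
    (s : ℝ) (hs : 0 < s)
    (σ : Finset (Fin N → ℕ)) (hσ : σ ∈ R.cones) (ρ : Fin N → ℕ) (hρ : ρ ∈ σ) :
    0 < kpW v μ s ρ := by
  have h2 := kw_pos R μ hμ σ hσ ρ hρ
  have h3 : (0:ℝ) ≤ ordAlong v ρ := Nat.cast_nonneg _
  unfold kpW
  positivity

lemma wt_coneW (v : Fin r → Fin N → ℕ) (μ : Fin N → ℝ) (s : ℝ) (σ : Finset (Fin N → ℕ))
    (c : σ → ℝ) :
    wt (lw μ s) (∑ ρ : σ, c ρ • rhoHat v (ρ : Fin N → ℕ)) =
      ∏ ρ : σ, ((Real.exp (-kpW v μ s ρ * c ρ) : ℝ) : ℂ) := by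
  unfold wt
  rw [← Complex.ofReal_prod, ← Complex.ofReal_prod, ← Real.exp_sum, ← Real.exp_sum]
  congr 2
  rw [Fin.sum_univ_succ]
  simp only [lw, Fin.cons_zero, Fin.cons_succ, Finset.sum_apply, Pi.smul_apply, smul_eq_mul, rhoHat,
    kpW, Finset.mul_sum]
  rw [Finset.sum_comm, ← Finset.sum_add_distrib]
  refine Finset.sum_congr rfl fun ρ _ => ?_
  have h : ∑ l, -μ l * (c ρ * ((ρ : Fin N → ℕ) l : ℝ)) = -(c ρ) * kw μ ρ := by
    unfold kw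
    rw [Finset.mul_sum]
    exact Finset.sum_congr rfl fun l _ => by ring
  rw [h]
  ring

lemma cone_valW (v : Fin r → Fin N → ℕ) (R : SmoothFan N) (μ : Fin N → ℝ) (hμ : ∀ i, 0 < μ i)
    (s : ℝ) (hs : 0 < s)
    (σ : Finset (Fin N → ℕ)) (hσ : σ ∈ R.cones) :
    ∫ c in {c : σ → ℝ | ∀ ρ, 0 < c ρ},
        wt (lw μ s) (∑ ρ : σ, c ρ • rhoHat v (ρ : Fin N → ℕ)) =
      ∏ ρ ∈ σ, ((ordAlong v ρ : ℂ) * s + ((kw μ ρ : ℝ) : ℂ))⁻¹ := by
  simp only [wt_coneW]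
  have h : {c : σ → ℝ | ∀ ρ, 0 < c ρ} = Set.univ.pi fun _ => Ioi 0 := by
    ext c; simp
  rw [h, volume_pi, Measure.restrict_pi_pi,
    integral_fintype_prod_eq_prod (fun (ρ : σ) t => ((Real.exp (-kpW v μ s ρ * t) : ℝ) : ℂ))]
  rw [← Finset.prod_coe_sort σ]
  refine Finset.prod_congr rfl fun ρ _ => ?_
  rw [exp_int _ (kpW_pos v R μ hμ s hs σ hσ ρ ρ.2)]
  congr 1
  unfold kpW
  push_cast
  rfl

open Classical in
lemma limGW_eq [NeZero r] (v : Fin r → Fin N → ℕ) (R : SmoothFan N) (hPr : Principal v R)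
    {J : Finset (Fin r)} (hJ : J.Nonempty) {d : ℕ}
    (Θ : ((J → ℝ) × (Fin d → ℝ)) ≃ₗ[ℝ] (Fin (N+1) → ℝ)) {θ : ℝ} (hA : Adapt v J d Θ θ)
    (μ : Fin N → ℝ) (α s : ℝ)
    (a : Fin d → ℝ) : limGW v μ α s J (Θ (0, a)) =
      ∑ σ ∈ R.cones.filter (PC v α J),
        (reg v Θ σ).indicator (fun a => wt (lw μ s) (Θ (0, a))) a := by
  have h0 : limGW v μ α s J (Θ (0, a)) =
      if Cond v α J (Θ (0, a)) then wt (lw μ s) (Θ (0, a)) else 0 := by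
    unfold limGW
    exact if_congr Iff.rfl rfl rfl
  rw [h0]
  split_ifs with h
  · obtain ⟨σ, hσ, hP, ha⟩ := reg_of_cond v R hPr hJ Θ hA α a h
    rw [Finset.sum_eq_single_of_mem σ (Finset.mem_filter.2 ⟨hσ, hP⟩), Set.indicator_of_mem ha]
    intro σ' hσ' hne
    rw [Set.indicator_of_notMem]
    intro ha'
    exact hne (reg_disj v R Θ σ' σ (Finset.mem_filter.1 hσ').1 hσ a ha' ha)
  · symm
    refine Finset.sum_eq_zero fun σ hσ => ?_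
    rw [Set.indicator_of_notMem]
    intro ha
    exact h (cond_of_reg v Θ α σ (Finset.mem_filter.1 hσ).2 a ha)

theorem valW [NeZero r] (v : Fin r → Fin N → ℕ) (R : SmoothFan N)
    (hPr : Principal v R) (μ : Fin N → ℝ) (hμ : ∀ i, 0 < μ i) (α s : ℝ) (hs : 0 < s)
    (J : Finset (Fin r)) (hJ : J.Nonempty) (d : ℕ)
    (Θ : ((J → ℝ) × (Fin d → ℝ)) ≃ₗ[ℝ] (Fin (N+1) → ℝ)) (θ : ℝ) (hA : Adapt v J d Θ θ)
    (hF : ∀ σ ∈ R.cones, minSet v σ = J → σ.card + J.card = N + 1 →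
      ∀ F : (Fin (N+1) → ℝ) → ℂ,
        (θ : ℂ) * (idx v J : ℂ) * ∫ a in reg v Θ σ, F (Θ (0, a)) =
          ∫ c in {c : σ → ℝ | ∀ ρ, 0 < c ρ}, F (∑ ρ : σ, c ρ • rhoHat v (ρ : Fin N → ℕ)))
    (hidx : idx v J ≠ 0) :
    (θ : ℂ) * ∫ a, limGW v μ α s J (Θ (0, a)) = limJW v μ R α s J := by
  classical
  have hdim := hA.dim
  have hidx' : (idx v J : ℂ) ≠ 0 := by exact_mod_cast hidx
  have hval : ∀ σ ∈ R.cones, minSet v σ = J → σ.card + J.card = N + 1 →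
      (θ : ℂ) * ∫ a in reg v Θ σ, wt (lw μ s) (Θ (0, a)) =
      (idx v J : ℂ)⁻¹ * ∏ ρ ∈ σ, ((ordAlong v ρ : ℂ) * s + ((kw μ ρ : ℝ) : ℂ))⁻¹ := by
    intro σ hσ h1 h2
    have h3 := hF σ hσ h1 h2 (wt (lw μ s))
    rw [cone_valW v R μ hμ s hs σ hσ] at h3
    rw [← h3]
    field_simp
  have hint : ∀ σ ∈ R.cones.filter (PC v α J), Integrable
      ((reg v Θ σ).indicator (fun a => wt (lw μ s) (Θ (0, a)))) := by
    intro σ hσ
    obtain ⟨hσ, hP⟩ := Finset.mem_filter.1 hσ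
    rw [integrable_indicator_iff (reg_meas v R Θ hA σ hσ hP.1)]
    have hle := card_le v R Θ hA σ hσ hP.1
    rcases hle.lt_or_eq with hlt | heq
    · rw [IntegrableOn, Measure.restrict_eq_zero.2 (reg_null v Θ hA σ hP.1 hlt)]
      exact integrable_zero_measure
    · by_contra hcon
      have h3 := hval σ hσ hP.1 (by omega)
      rw [integral_undef hcon, mul_zero] at h3
      have h4 : (idx v J : ℂ)⁻¹ * ∏ ρ ∈ σ, ((ordAlong v ρ : ℂ) * s + ((kw μ ρ : ℝ) : ℂ))⁻¹ ≠ 0 := by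
        refine mul_ne_zero (inv_ne_zero hidx') (Finset.prod_ne_zero_iff.2 fun ρ hρ => inv_ne_zero ?_)
        have h5 : (ordAlong v ρ : ℂ) * s + ((kw μ ρ : ℝ) : ℂ) = ((kpW v μ s ρ : ℝ) : ℂ) := by
          unfold kpW; push_cast; rfl
        rw [h5]
        exact_mod_cast (kpW_pos v R μ hμ s hs σ hσ ρ hρ).ne'
      exact h4 h3.symm
  simp only [limGW_eq v R hPr hJ Θ hA μ α s]
  rw [integral_finsetSum _ hint, Finset.mul_sum, Finset.sum_filter]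
  unfold limJW
  refine Finset.sum_congr rfl fun σ hσ => ?_
  by_cases hP : PC v α J σ
  · rw [if_pos hP, integral_indicator (reg_meas v R Θ hA σ hσ hP.1)]
    have hle := card_le v R Θ hA σ hσ hP.1
    rcases hle.lt_or_eq with hlt | heq
    · rw [if_neg (fun h => by have := h.2.1; omega),
        Measure.restrict_eq_zero.2 (reg_null v Θ hA σ hP.1 hlt), integral_zero_measure, mul_zero]
    · rw [if_pos ⟨hP.1, by omega, hP.2⟩]
      exact hval σ hσ hP.1 (by omega)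
  · rw [if_neg hP, if_neg (fun h => hP ⟨h.1, h.2.2⟩)]

/-- the convergence -/
lemma conv_W [NeZero r] (v : Fin r → Fin N → ℕ) (hv : Ind v) (R : SmoothFan N)
    (hR : Principal v R) (μ : Fin N → ℝ) (hμ : ∀ i, 0 < μ i)
    (α : ℝ) (hα : α ≠ 0) (K : ℝ) (hK : 0 < K) (s : ℝ) (hs : 0 < s)
    (J : Finset (Fin r)) (hJ : J.Nonempty) :
    Tendsto (fun m : ℕ => ∫ x, integW v μ K α s J m x
        ∂(Measure.pi (ms (∅ : Finset (Fin (N+1)))))) atTop (𝓝 (limJW v μ R α s J)) := by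
  obtain ⟨d, Θ, θ, hA, hI⟩ := Pool.Agent.W375.SM.taskC1 v R J hv hJ
  rw [← valW v R hR μ hμ α s hs J hJ d Θ θ hA hI (Pool.Agent.W655.SM.taskC4 v J hv).1]
  exact limW v hv μ hμ K α s hK hα hs J d Θ θ hA

end Pool.Agent.W423.MV
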