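import Pool.Agent.W425.SM.Final

set_option autoImplicit false

/-! Multi-variable topological zeta functions: definitions. -/

namespace Pool.Agent.W423.MV

open MvPolynomial Pool.Agent.H628R4.TZ Pool.Agent.H628R4.TP Pool.Agent.W425.SM

/-- `b` belongs to the Bernstein-Sato ideal of the tuple `f = (f_1, …, f_n)`:
`b(s_1, …, s_n) f_1 ^ s_1 ⋯ f_n ^ s_n = P(s_1, …, s_n) f_1 ^ (s_1 + 1) ⋯ f_n ^ (s_n + 1)` for some
`P` in the Weyl algebra with the commuting variables `s_1, …, s_n` adjoined. The equation is stated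
for all `s ∈ ℕ ^ n`; this is equivalent to the formal equation, as the coefficients are polynomials
in `s`. -/
def InBSIdeal {n N : ℕ} (f : Fin n → MvPolynomial (Fin N) ℂ) (b : MvPolynomial (Fin n) ℂ) : Prop :=
  ∃ P : (Fin n →₀ ℕ) →₀ weyl N, ∀ s : Fin n → ℕ,
    C (eval (fun j => (s j : ℂ)) b) * ∏ j, f j ^ s j = applyAt P s (∏ j, f j ^ (s j + 1))

/-- The tuple `(g, x_1, …, x_N)`, where `g = ∑_j a_j x ^ (v j)`. -/
noncomputable def tuple {r N : ℕ} (v : Fin r → Fin N → ℕ) (a : Fin r → ℂ) :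
    Fin (N+1) → MvPolynomial (Fin N) ℂ :=
  Fin.cons (sparse v a) (fun i => X i)

/-- The linear form `ord_ρ(g) s_0 + ∑_i ρ_i (s_i + 1)` of the toric divisor of the ray `ρ`: the
order of `g` along this divisor is `ordAlong v ρ`, the order of `x_i` is `ρ_i`, and the order of the
Jacobian determinant of the toric morphism is `∑_i ρ_i - 1`. -/
noncomputable def linForm {r N : ℕ} (v : Fin r → Fin N → ℕ) (ρ : Fin N → ℕ) :
    MvPolynomial (Fin (N+1)) ℂ :=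
  C (ordAlong v ρ : ℂ) * X 0 + ∑ i : Fin N, C (ρ i : ℂ) * (X i.succ + 1)

/-- The topological zeta function, in the variables `s_0, …, s_N`, of the tuple
`(g, x_1, …, x_N)`, `g = ∑_j a_j x ^ (v j)`, computed on the toric log resolution given by `R`. -/
noncomputable def topZetaMulti {r N : ℕ} (v : Fin r → Fin N → ℕ) (R : SmoothFan N) :
    FractionRing (MvPolynomial (Fin (N+1)) ℂ) :=
  ∑ σ ∈ R.cones, (((chiO σ - chiH v σ : ℤ) : FractionRing (MvPolynomial (Fin (N+1)) ℂ)) +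
      ((chiH v σ : ℤ) : FractionRing (MvPolynomial (Fin (N+1)) ℂ)) *
        (algebraMap (MvPolynomial (Fin (N+1)) ℂ) _ (X 0 + 1))⁻¹) *
    ∏ ρ ∈ σ, (algebraMap (MvPolynomial (Fin (N+1)) ℂ) _ (linForm v ρ))⁻¹

/-! ### Tools -/

/-- the weights -/
noncomputable def lw {N : ℕ} (μ : Fin N → ℝ) (s : ℝ) : Fin (N+1) → ℝ := Fin.cons s μ

/-- `μ_i + ℓ_i` -/
noncomputable def elw {r N : ℕ} (μ : Fin N → ℝ) (v : Fin r → Fin N → ℕ) (i : Fin N) :
    MvPolynomial (Fin r) ℂ := C ((μ i : ℝ) : ℂ) + Lf (fun j => (v j i : ℝ))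

/-- The algebraic relation satisfied by `b_f(s) / (s + 1)`. -/
def RelW {r N : ℕ} (μ : Fin N → ℝ) (v : Fin r → Fin N → ℕ) (M : ℕ) (Cs : Finset (Fin r → ℤ))
    (p : Polynomial ℂ) : Prop :=
  ∃ (q : (Fin r → ℤ) → MvPolynomial (Fin r) ℂ),
    (∀ c ∈ Cs, ∑ j, c j = 1) ∧
    Polynomial.aeval (∑ j, X j : MvPolynomial (Fin r) ℂ) p * ∏ j, dm M j =
      ∑ c ∈ Cs, (∏ i ∈ Bc v c, elw μ v i) * ((∏ j, if c j < 0 then X j * dm M j else 1) * q c)

/-- The integrand for `J`: smoothed delta functions at `y_j = 0`, `j ∈ J`, and smoothed step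
functions of the other `y_j`. -/
noncomputable def integW {r N : ℕ} (v : Fin r → Fin N → ℕ) (μ : Fin N → ℝ) (K α s : ℝ)
    (J : Finset (Fin r)) (m : ℕ) (x : Fin (N+1) → ℝ) : ℂ :=
  wt (lw μ s) x * ∏ j, (((if j ∈ J then -ph (dl m ^ 2) 1 (ymap v x j + yz v K α m j)
    else ph (dl m ^ 2) 0 (ymap v x j + yz v K α m j) : ℝ)) : ℂ)

/-- the limit integrand -/
noncomputable def limGW {r N : ℕ} (v : Fin r → Fin N → ℕ) (μ : Fin N → ℝ) (α s : ℝ)
    (J : Finset (Fin r)) (x : Fin (N+1) → ℝ) : ℂ :=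
  open Classical in
  if 0 < x 0 ∧ (∀ i : Fin N, 0 < x i.succ ∨ (0 < α ∧ x i.succ = 0)) ∧ (∀ j ∉ J, 0 < ymap v x j)
  then wt (lw μ s) x else 0

/-- the weight of a ray -/
noncomputable def kw {N : ℕ} (μ : Fin N → ℝ) (ρ : Fin N → ℕ) : ℝ := ∑ l, (ρ l : ℝ) * μ l

/-- the limit for `J` -/
noncomputable def limJW {r N : ℕ} (v : Fin r → Fin N → ℕ) (μ : Fin N → ℝ) (R : SmoothFan N)
    (α s : ℝ) (J : Finset (Fin r)) : ℂ :=
  open Classical in
  ∑ σ ∈ R.cones, if minSet v σ = J ∧ σ.card + J.card = N + 1 ∧ Inc α σ ∧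
      (∃ ρ ∈ σ, ordAlong v ρ ≠ 0) then
    (idx v J : ℂ)⁻¹ * ∏ ρ ∈ σ, ((ordAlong v ρ : ℂ) * s + ((kw μ ρ : ℝ) : ℂ))⁻¹ else 0

end Pool.Agent.W423.MV
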